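import Mathlib

/-!
# Virtual retractions onto cyclic subgroups: definitions
-/

set_option autoImplicit false

namespace Pool.Agent.Helper485_VRC

/-- `H` is a virtual retract of `G` -/
def IsVirtualRetract {G : Type} [Group G] (H : Subgroup G) : Prop :=
  ∃ K : Subgroup G, K.FiniteIndex ∧ ∃ hHK : H ≤ K, ∃ ρ : K →* H, ∀ h : H, ρ ⟨h, hHK h.2⟩ = h

/-- property (VRC): every cyclic subgroup is a virtual retract -/
def VRC (G : Type) [Group G] : Prop :=
  ∀ g : G, IsVirtualRetract (Subgroup.zpowers g)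

/-- virtually cyclic groups -/
def VirtuallyCyclic (C : Type) [Group C] : Prop :=
  ∃ Z : Subgroup C, Z.FiniteIndex ∧ IsCyclic Z

/-- the commutative square `α ∘ i = β ∘ j` presents `G` as the amalgam of `P` and `Q` along `C` -/
structure IsAmalgam {P Q C G : Type} [Group P] [Group Q] [Group C] [Group G] (i : C →* P)
    (j : C →* Q) (α : P →* G) (β : Q →* G) : Prop where
  comm : ∀ c, α (i c) = β (j c)
  gen : α.range ⊔ β.range = ⊤
  lift : ∀ (M : Type) [Group M] (a : P →* M) (b : Q →* M), (∀ c, a (i c) = b (j c)) →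
    ∃ f : G →* M, (∀ p, f (α p) = a p) ∧ ∀ q, f (β q) = b q

end Pool.Agent.Helper485_VRC
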