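import Mathlib
import Pool.Agent.Helper485_VRC.Defs

set_option autoImplicit false

namespace Pool.Agent.Helper485_VRC
/-- a subgroup normalised by `g`, disjoint from `⟨g⟩`, with `M ⟨g⟩` of finite index -/
theorem vr_core {G : Type} [Group G] (g : G) (M : Subgroup G)
    (h1 : ∀ x ∈ M, g * x * g⁻¹ ∈ M) (h2 : ∀ x ∈ M, g⁻¹ * x * g ∈ M)
    (h3 : ∀ n : ℤ, g ^ n ∈ M → g ^ n = 1) (h4 : (M ⊔ Subgroup.zpowers g).FiniteIndex) :
    IsVirtualRetract (Subgroup.zpowers g) := by
  have hz : ∀ (n : ℤ) (x : G), x ∈ M → g ^ n * x * (g ^ n)⁻¹ ∈ M := by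
    intro n
    induction n using Int.induction_on with
    | zero => intro x hx; simpa using hx
    | succ n ih =>
      intro x hx
      have := h1 _ (ih x hx)
      have e : g ^ ((n : ℤ) + 1) * x * (g ^ ((n : ℤ) + 1))⁻¹ =
          g * (g ^ (n : ℤ) * x * (g ^ (n : ℤ))⁻¹) * g⁻¹ := by
        rw [add_comm, zpow_add, zpow_one]; group
      rwa [e]
    | pred n ih =>
      intro x hx
      have := h2 _ (ih x hx)
      have e : g ^ (-(n : ℤ) - 1) * x * (g ^ (-(n : ℤ) - 1))⁻¹ =
          g⁻¹ * (g ^ (-(n : ℤ)) * x * (g ^ (-(n : ℤ)))⁻¹) * g := by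
        rw [sub_eq_add_neg, add_comm, zpow_add, zpow_neg_one]; group
      rwa [e]
  set K := M ⊔ Subgroup.zpowers g with hK
  have hMK : M ≤ K := le_sup_left
  have hZK : Subgroup.zpowers g ≤ K := le_sup_right
  have hnorm : (M.subgroupOf K).Normal := by
    rw [Subgroup.normal_subgroupOf_iff_le_normalizer hMK, hK, sup_le_iff]
    refine ⟨Subgroup.le_normalizer, ?_⟩
    rw [Subgroup.zpowers_le, Subgroup.mem_normalizer_iff]
    intro x
    constructor
    · exact h1 x
    · intro hx
      have := h2 _ hx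
      have e : g⁻¹ * (g * x * g⁻¹) * g = x := by group
      rwa [e] at this
  have hmem : ∀ y ∈ K, ∃ x ∈ M, ∃ n : ℤ, y = x * g ^ n := by
    intro y hy
    rw [hK, Subgroup.sup_eq_closure] at hy
    induction hy using Subgroup.closure_induction with
    | mem y hy =>
      rcases hy with hy | hy
      · exact ⟨y, hy, 0, by simp⟩
      · obtain ⟨n, hn⟩ := Subgroup.mem_zpowers_iff.1 hy
        exact ⟨1, M.one_mem, n, by rw [hn, one_mul]⟩
    | one => exact ⟨1, M.one_mem, 0, by simp⟩
    | mul y z _ _ hy hz' =>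
      obtain ⟨x, hx, n, rfl⟩ := hy
      obtain ⟨x', hx', n', rfl⟩ := hz'
      refine ⟨x * (g ^ n * x' * (g ^ n)⁻¹), M.mul_mem hx (hz n x' hx'), n + n', ?_⟩
      rw [zpow_add]; group
    | inv y _ hy =>
      obtain ⟨x, hx, n, rfl⟩ := hy
      refine ⟨g ^ (-n) * x⁻¹ * (g ^ (-n))⁻¹, hz (-n) _ (M.inv_mem hx), -n, ?_⟩
      rw [zpow_neg]; group
  let f : Subgroup.zpowers g →* K ⧸ M.subgroupOf K :=
    (QuotientGroup.mk' (M.subgroupOf K)).comp (Subgroup.inclusion hZK)
  have hf : Function.Bijective f := by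
    constructor
    · rw [injective_iff_map_eq_one]
      rintro ⟨z, hz'⟩ h
      obtain ⟨n, rfl⟩ := Subgroup.mem_zpowers_iff.1 hz'
      have h5 := (QuotientGroup.eq_one_iff (Subgroup.inclusion hZK ⟨g ^ n, hz'⟩)).1 h
      rw [Subgroup.mem_subgroupOf] at h5
      exact Subtype.ext (h3 n h5)
    · intro q
      obtain ⟨⟨y, hy⟩, rfl⟩ := QuotientGroup.mk_surjective q
      obtain ⟨x, hx, n, rfl⟩ := hmem y hy
      refine ⟨⟨g ^ n, Subgroup.zpow_mem _ (Subgroup.mem_zpowers g) n⟩, ?_⟩
      show ((Subgroup.inclusion hZK _ : K) : K ⧸ M.subgroupOf K) = _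
      rw [QuotientGroup.eq, Subgroup.mem_subgroupOf]
      show (g ^ n)⁻¹ * (x * g ^ n) ∈ M
      have := hz (-n) x hx
      rw [zpow_neg, inv_inv] at this
      rwa [mul_assoc] at this
  let e := MulEquiv.ofBijective f hf
  refine ⟨K, h4, hZK, (e.symm : K ⧸ M.subgroupOf K →* Subgroup.zpowers g).comp
    (QuotientGroup.mk' (M.subgroupOf K)), ?_⟩
  intro h
  show e.symm (f h) = h
  exact e.symm_apply_apply h

theorem vr_of_disjoint {G : Type} [Group G] (g : G) (N : Subgroup G) (hN : N.FiniteIndex)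
    (h : ∀ n : ℤ, g ^ n ∈ N → g ^ n = 1) : IsVirtualRetract (Subgroup.zpowers g) := by
  apply vr_core g N.normalCore
  · intro x hx
    exact (inferInstance : N.normalCore.Normal).conj_mem x hx g
  · intro x hx
    have := (inferInstance : N.normalCore.Normal).conj_mem x hx g⁻¹
    rwa [inv_inv] at this
  · intro n hn
    exact h n (N.normalCore_le hn)
  · exact Subgroup.finiteIndex_of_le (H := N.normalCore) le_sup_left

theorem vr_of_char {G : Type} [Group G] (g : G) (K : Subgroup G) (hK : K.FiniteIndex)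
    (χ : K →* Multiplicative ℤ) (n : ℕ) (hn : g ^ n ∈ K) (h : χ ⟨g ^ n, hn⟩ ≠ 1) :
    IsVirtualRetract (Subgroup.zpowers g) := by
  set N := K.normalCore with hN
  have hNK : N ≤ K := K.normalCore_le
  have hNf : N.FiniteIndex := inferInstance
  set l := N.index with hl
  have hl0 : l ≠ 0 := hNf.index_ne_zero
  have hgl : g ^ l ∈ N := Subgroup.pow_index_mem N g
  let c : ℕ → (N →* N) := fun i => (MulAut.conjNormal (g ^ i) : N ≃* N).toMonoidHom
  let χN : N →* Multiplicative ℤ := χ.comp (Subgroup.inclusion hNK)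
  let χ' : N →* Multiplicative ℤ := ∏ i ∈ Finset.range l, χN.comp (c i)
  have hχ' : ∀ x, χ' x = ∏ i ∈ Finset.range l, χN (c i x) := by
    intro x
    simp only [χ', MonoidHom.finsetProd_apply, MonoidHom.comp_apply]
  have hc1 : ∀ x : N, c 0 x = x := by
    intro x
    apply Subtype.ext
    simp [c]
  have hinvar : ∀ x : N, χ' (c 1 x) = χ' x := by
    intro x
    rw [hχ', hχ']
    have e1 : ∀ i, c i (c 1 x) = c (i + 1) x := by
      intro i
      apply Subtype.ext
      simp [c, pow_succ, mul_assoc]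
    simp only [e1]
    have e2 : χN (c l x) = χN (c 0 x) := by
      have e3 : c l x = ⟨g ^ l, hgl⟩ * x * ⟨g ^ l, hgl⟩⁻¹ := by
        apply Subtype.ext
        show (MulAut.conjNormal (g ^ l) x : G) = _
        rw [MulAut.conjNormal_apply]
        rfl
      rw [e3, map_mul, map_mul, map_inv, hc1, mul_comm, inv_mul_cancel_left]
    have e4 := Finset.prod_range_succ (fun i => χN (c i x)) l
    have e5 := Finset.prod_range_succ' (fun i => χN (c i x)) l
    rw [e4] at e5
    have e6 : (∏ i ∈ Finset.range l, χN (c i x)) * χN (c l x) =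
        (∏ i ∈ Finset.range l, χN (c (i + 1) x)) * χN (c l x) := by
      rw [e5, e2]
    exact (mul_right_cancel e6).symm
  set z : N := ⟨g ^ l, hgl⟩ with hz
  have hcz : ∀ i, c i z = z := by
    intro i
    apply Subtype.ext
    simp only [c, hz, MulEquiv.toMonoidHom_eq_coe, MonoidHom.coe_coe, MulAut.conjNormal_apply]
    rw [← pow_add, add_comm, pow_add, mul_inv_cancel_right]
  have hχz : χ' z = χN z ^ l := by
    rw [hχ']
    simp only [hcz, Finset.prod_const, Finset.card_range]
  have hne1 : χN z ≠ 1 := by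
    intro h1
    apply h
    have h2 : χ ⟨g ^ n, hn⟩ ^ l = 1 := by
      rw [← map_pow]
      have e : (⟨g ^ n, hn⟩ : K) ^ l = (Subgroup.inclusion hNK z) ^ n := by
        apply Subtype.ext
        simp only [hz, SubmonoidClass.coe_pow, Subgroup.coe_inclusion]
        rw [← pow_mul, ← pow_mul, mul_comm]
      rw [e, map_pow]
      have h3 : χ (Subgroup.inclusion hNK z) = 1 := h1
      rw [h3, one_pow]
    exact (pow_eq_one_iff.1 h2).resolve_right hl0
  have hne : χ' z ≠ 1 := by
    rw [hχz]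
    intro h1
    exact hne1 ((pow_eq_one_iff.1 h1).resolve_right hl0)
  -- the kernel
  let M : Subgroup G := χ'.ker.map N.subtype
  have hM : ∀ x : N, (x : G) ∈ M ↔ χ' x = 1 := by
    intro x
    constructor
    · rintro ⟨y, hy, he⟩
      have : y = x := Subtype.ext he
      rw [← this]
      exact hy
    · intro hx
      exact ⟨x, hx, rfl⟩
  have hMN : M ≤ N := by
    rintro _ ⟨y, _, rfl⟩
    exact y.2
  have hNn : N.Normal := inferInstance
  apply vr_core g M
  · intro x hx
    have h1 := (hM ⟨x, hMN hx⟩).1 hx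
    have h2 : χ' (c 1 ⟨x, hMN hx⟩) = 1 := by rw [hinvar, h1]
    have h3 := (hM _).2 h2
    simpa [c] using h3
  · intro x hx
    have hy : g⁻¹ * x * g ∈ N := by
      have := hNn.conj_mem x (hMN hx) g⁻¹
      rwa [inv_inv] at this
    have h1 := (hM ⟨x, hMN hx⟩).1 hx
    have e : c 1 ⟨g⁻¹ * x * g, hy⟩ = ⟨x, hMN hx⟩ := by
      apply Subtype.ext
      simp only [c, MulEquiv.toMonoidHom_eq_coe, MonoidHom.coe_coe, MulAut.conjNormal_apply,
        pow_one]
      group
    exact (hM ⟨g⁻¹ * x * g, hy⟩).2 (by rw [← hinvar, e, h1])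
  · intro k hk
    have hkN : g ^ k ∈ N := hMN hk
    have h1 := (hM ⟨g ^ k, hkN⟩).1 hk
    have e : (⟨g ^ k, hkN⟩ : N) ^ l = z ^ k := by
      apply Subtype.ext
      simp only [hz, SubmonoidClass.coe_pow, SubgroupClass.coe_zpow]
      rw [← zpow_natCast, ← zpow_natCast, ← zpow_mul, ← zpow_mul, mul_comm]
    have h2 : χ' z ^ k = 1 := by
      rw [← map_zpow, ← e, map_pow, h1, one_pow]
    have hk0 : k = 0 := by
      by_contra hk0
      apply hne
      have h3 : k * (χ' z).toAdd = 0 := by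
        have := congrArg Multiplicative.toAdd h2
        simpa using this
      rcases mul_eq_zero.1 h3 with h4 | h4
      · exact absurd h4 hk0
      · exact Multiplicative.toAdd.injective h4
    rw [hk0, zpow_zero]
  · -- finite index
    set m : ℤ := (χ' z).toAdd with hm
    have hm0 : m ≠ 0 := fun h0 => hne (Multiplicative.toAdd.injective h0)
    have : NeZero m.natAbs := ⟨Int.natAbs_ne_zero.2 hm0⟩
    let θ : N →* Multiplicative (ZMod m.natAbs) :=
      (AddMonoidHom.toMultiplicative (Int.castAddHom (ZMod m.natAbs))).comp χ'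
    have hfin : Finite (Multiplicative (ZMod m.natAbs)) := inferInstance
    have h1 : θ.ker.FiniteIndex := Subgroup.finiteIndex_ker θ
    have h2 : (θ.ker.map N.subtype).FiniteIndex := by
      refine ⟨?_⟩
      rw [Subgroup.index_map_subtype]
      exact mul_ne_zero h1.index_ne_zero hNf.index_ne_zero
    refine Subgroup.finiteIndex_of_le (H := θ.ker.map N.subtype) ?_
    rintro _ ⟨x, hx, rfl⟩
    have h3 : (((χ' x).toAdd : ℤ) : ZMod m.natAbs) = 0 := by
      have := MonoidHom.mem_ker.1 hx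
      exact congrArg Multiplicative.toAdd this
    rw [ZMod.intCast_zmod_eq_zero_iff_dvd, Int.natAbs_dvd] at h3
    obtain ⟨a, ha⟩ := h3
    have h4 : χ' (x * (z ^ a)⁻¹) = 1 := by
      apply Multiplicative.toAdd.injective
      rw [map_mul, map_inv, map_zpow]
      simp only [toAdd_mul, toAdd_inv, toAdd_zpow, toAdd_one]
      rw [ha, ← hm, smul_eq_mul]
      ring
    have h5 := (hM _).2 h4
    have e : N.subtype x = ((x * (z ^ a)⁻¹ : N) : G) * (g ^ l) ^ a := by
      simp [hz]
    rw [e]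
    apply Subgroup.mul_mem _ ((le_sup_left : M ≤ M ⊔ Subgroup.zpowers g) h5)
    apply (le_sup_right : Subgroup.zpowers g ≤ M ⊔ Subgroup.zpowers g)
    exact Subgroup.zpow_mem _ (Subgroup.pow_mem _ (Subgroup.mem_zpowers g) l) a

end Pool.Agent.Helper485_VRC
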