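import Mathlib
import Pool.Agent.Helper485_VRC.Defs

set_option autoImplicit false

namespace Pool.Agent.Helper485_VRC

/-! TARGET.
rf: ρ : K → zpowers a with ρ a = a. zpowers a has a subgroup of finite index not containing a: zpowers (a^2) if a has infinite order, ⊥ if a has finite order (a ≠ 1). Its preimage in K has finite index in K, hence (mapped to A) in A,
 and does not contain a; take the normal core.
sep: ρ : K → zpowers c retraction. If a ∉ K: M := K.normalCore (c ∈ K, so c^n a ∈ M ≤ K gives a ∈ K). If a ∈ K: t := (ρ a)⁻¹ a ≠ 1 (else a ∈ zpowers c); by rf there is M₁ normal of finite index with t ∉ M₁;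
 M := normalCore of {m ∈ K | m ∈ M₁ and ρ m ∈ M₁} (finite index). If m = c^n a ∈ M then ρ m = c^n ρ a, so t = (ρ a)⁻¹ a = (ρ m)⁻¹ m ∈ M₁, contradiction.
sepC: Z ≤ C of finite index, cyclic, generated by z; C is a finite union of cosets Z c_i (right cosets: every c = z^n c_i). For each i, φ(c_i) a ∉ zpowers (φ z) (else a ∈ φ.range), so sep gives M_i with
 φ(z)^n φ(c_i) a ∉ M_i; M := ⨅ M_i (finite intersection of normal subgroups of finite index).
-/

theorem aux_cyc {A : Type} [Group A] (a : A) (ha : a ≠ 1) :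
    ∃ N : Subgroup (Subgroup.zpowers a), N.FiniteIndex ∧
      (⟨a, Subgroup.mem_zpowers a⟩ : Subgroup.zpowers a) ∉ N := by
  set g : Subgroup.zpowers a := ⟨a, Subgroup.mem_zpowers a⟩ with hg
  have hg1 : g ≠ 1 := fun h => ha (congrArg Subtype.val h)
  have hgen : ∀ x : Subgroup.zpowers a, ∃ n : ℤ, x = g ^ n := by
    rintro ⟨x, hx⟩
    obtain ⟨n, rfl⟩ := Subgroup.mem_zpowers_iff.1 hx
    exact ⟨n, Subtype.ext (by simp [hg])⟩
  by_cases hfin : IsOfFinOrder g
  · refine ⟨⊥, ?_, ?_⟩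
    · have hfi : Finite (Subgroup.zpowers a) := by
        have h1 : ((Subgroup.zpowers g : Subgroup (Subgroup.zpowers a)) :
            Set (Subgroup.zpowers a)).Finite := by
          rw [finite_zpowers]; exact hfin
        have h2 : (Subgroup.zpowers g : Set (Subgroup.zpowers a)) = Set.univ := by
          ext x
          obtain ⟨n, rfl⟩ := hgen x
          simp only [SetLike.mem_coe, Set.mem_univ, iff_true]
          exact Subgroup.mem_zpowers_iff.2 ⟨n, rfl⟩
        rw [h2] at h1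
        exact Set.finite_univ_iff.1 h1
      infer_instance
    · rw [Subgroup.mem_bot]; exact hg1
  · refine ⟨Subgroup.zpowers (g ^ 2), ?_, ?_⟩
    · have hs : Function.Surjective
          (fun i : Fin 2 => ((g ^ (i : ℕ) : Subgroup.zpowers a) :
            (Subgroup.zpowers a) ⧸ Subgroup.zpowers (g ^ 2))) := by
        intro q
        induction q using QuotientGroup.induction_on with
        | H x =>
          obtain ⟨n, rfl⟩ := hgen x
          refine ⟨⟨(n % 2).toNat, by omega⟩, ?_⟩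
          rw [QuotientGroup.eq]
          refine Subgroup.mem_zpowers_iff.2 ⟨n / 2, ?_⟩
          dsimp only
          rw [← zpow_natCast g (n % 2).toNat, Int.toNat_of_nonneg (by omega), ← zpow_neg, ← zpow_add,
            ← zpow_natCast g 2, ← zpow_mul]
          congr 1
          push_cast
          omega
      have := Finite.of_surjective _ hs
      exact Subgroup.finiteIndex_iff_finite_quotient.2 this
    · intro h
      obtain ⟨k, hk⟩ := Subgroup.mem_zpowers_iff.1 h
      have hinj := injective_zpow_iff_not_isOfFinOrder.2 hfin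
      have h2 : g ^ (2 * k) = g ^ (1 : ℤ) := by
        rw [zpow_one, zpow_mul, ← zpow_natCast] at *
        exact hk
      have := hinj h2
      omega

theorem aux_comap {A B : Type} [Group A] [Group B] (f : A →* B) (N : Subgroup B)
    (hN : N.FiniteIndex) : (N.comap f).FiniteIndex := by
  constructor
  rw [Subgroup.index_comap]
  exact (inferInstance : (N.subgroupOf f.range).FiniteIndex).index_ne_zero

theorem aux_map {A : Type} [Group A] (K : Subgroup A) (hK : K.FiniteIndex) (S : Subgroup K)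
    (hS : S.FiniteIndex) : (S.map K.subtype).FiniteIndex := by
  constructor
  rw [Subgroup.index_map_subtype]
  exact mul_ne_zero hS.index_ne_zero hK.index_ne_zero

theorem rf {A : Type} [Group A] (hA : VRC A) (a : A) (ha : a ≠ 1) :
    ∃ M : Subgroup A, M.Normal ∧ M.FiniteIndex ∧ a ∉ M := by
  obtain ⟨K, hK, hHK, ρ, hρ⟩ := hA a
  obtain ⟨N, hN, hgN⟩ := aux_cyc a ha
  have h1 : (N.comap ρ).FiniteIndex := aux_comap ρ N hN
  have h2 := aux_map K hK _ h1
  refine ⟨((N.comap ρ).map K.subtype).normalCore, inferInstance, inferInstance, ?_⟩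
  intro h
  have h3 := Subgroup.normalCore_le _ h
  obtain ⟨x, hx, hxa⟩ := Subgroup.mem_map.1 h3
  have h4 : x = ⟨a, hHK (Subgroup.mem_zpowers a)⟩ := Subtype.ext hxa
  rw [Subgroup.mem_comap, h4] at hx
  have h5 := hρ ⟨a, Subgroup.mem_zpowers a⟩
  rw [h5] at hx
  exact hgN hx

theorem sep {A : Type} [Group A] (hA : VRC A) (c a : A) (ha : a ∉ Subgroup.zpowers c) :
    ∃ M : Subgroup A, M.Normal ∧ M.FiniteIndex ∧ ∀ n : ℤ, c ^ n * a ∉ M := by
  obtain ⟨K, hK, hHK, ρ, hρ⟩ := hA c
  have hcK : ∀ n : ℤ, c ^ n ∈ K := fun n => K.zpow_mem (hHK (Subgroup.mem_zpowers c)) n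
  by_cases haK : a ∈ K
  · set t : A := ((ρ ⟨a, haK⟩ : Subgroup.zpowers c) : A)⁻¹ * a with ht
    have ht1 : t ≠ 1 := by
      intro h
      apply ha
      have : ((ρ ⟨a, haK⟩ : Subgroup.zpowers c) : A) = a := inv_mul_eq_one.1 h
      rw [← this]
      exact (ρ ⟨a, haK⟩).2
    obtain ⟨M₁, hM₁, hM₁f, htM⟩ := rf hA t ht1
    have h1 : (M₁.comap K.subtype ⊓ M₁.comap ((Subgroup.zpowers c).subtype.comp ρ)).FiniteIndex := by
      have := aux_comap K.subtype M₁ hM₁f
      have := aux_comap ((Subgroup.zpowers c).subtype.comp ρ) M₁ hM₁f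
      infer_instance
    have h2 := aux_map K hK _ h1
    refine ⟨((M₁.comap K.subtype ⊓ M₁.comap ((Subgroup.zpowers c).subtype.comp ρ)).map
      K.subtype).normalCore, inferInstance, inferInstance, ?_⟩
    intro n h
    have h3 := Subgroup.normalCore_le _ h
    obtain ⟨x, hx, hxa⟩ := Subgroup.mem_map.1 h3
    obtain ⟨hx1, hx2⟩ := Subgroup.mem_inf.1 hx
    rw [Subgroup.mem_comap] at hx1 hx2
    have hxa' : x = ⟨c ^ n, hcK n⟩ * ⟨a, haK⟩ := Subtype.ext hxa
    have h5 : ρ ⟨c ^ n, hcK n⟩ = ⟨c ^ n, Subgroup.zpow_mem _ (Subgroup.mem_zpowers c) n⟩ :=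
      hρ ⟨c ^ n, Subgroup.zpow_mem _ (Subgroup.mem_zpowers c) n⟩
    apply htM
    have h6 : t = (((Subgroup.zpowers c).subtype.comp ρ) x)⁻¹ * K.subtype x := by
      rw [hxa']
      simp only [MonoidHom.comp_apply, map_mul, h5, ht]
      simp only [Subgroup.subtype_apply]
      group
    rw [h6]
    exact M₁.mul_mem (M₁.inv_mem hx2) hx1
  · refine ⟨K.normalCore, inferInstance, inferInstance, ?_⟩
    intro n h
    have h3 := Subgroup.normalCore_le _ h
    exact haK ((K.mul_mem_cancel_left (hcK n)).1 h3)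

theorem sepC {A C : Type} [Group A] [Group C] (hA : VRC A) (φ : C →* A)
    (hC : VirtuallyCyclic C) (a : A) (ha : a ∉ φ.range) :
    ∃ M : Subgroup A, M.Normal ∧ M.FiniteIndex ∧ ∀ c : C, φ c * a ∉ M := by
  obtain ⟨Z, hZ, hcyc⟩ := hC
  obtain ⟨z, hz⟩ := hcyc.exists_generator
  have hnot : ∀ q : C ⧸ Z, φ (q.out)⁻¹ * a ∉ Subgroup.zpowers (φ z) := by
    intro q h
    obtain ⟨n, hn⟩ := Subgroup.mem_zpowers_iff.1 h
    apply ha
    refine ⟨q.out * (z : C) ^ n, ?_⟩
    rw [map_mul, map_zpow, hn, map_inv]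
    group
  choose M hM1 hM2 hM3 using fun q : C ⧸ Z => sep hA (φ z) (φ (q.out)⁻¹ * a) (hnot q)
  have hfin : Finite (C ⧸ Z) := Subgroup.finiteIndex_iff_finite_quotient.1 hZ
  refine ⟨⨅ q, M q, Subgroup.normal_iInf_normal hM1, Subgroup.finiteIndex_iInf hM2, ?_⟩
  intro c hc
  rw [Subgroup.mem_iInf] at hc
  have h1 := hc ((c⁻¹ : C) : C ⧸ Z)
  obtain ⟨h, hh⟩ := QuotientGroup.mk_out_eq_mul Z c⁻¹
  obtain ⟨n, hn⟩ := Subgroup.mem_zpowers_iff.1 (hz h)
  apply hM3 ((c⁻¹ : C) : C ⧸ Z) n
  have h3 : φ c * a = φ z ^ n * (φ (((c⁻¹ : C) : C ⧸ Z).out)⁻¹ * a) := by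
    rw [hh, ← hn, ← mul_assoc, ← map_zpow, ← map_mul]
    congr 2
    simp
  rw [← h3]
  exact h1

end Pool.Agent.Helper485_VRC
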