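import Mathlib
import Pool.Agent.Helper485_VRC.Defs
import Pool.Agent.Helper485_VRC.Sep

set_option autoImplicit false

namespace Pool.Agent.Helper485_VRC


/-! TARGET.
choice_fin: for each c ≠ 1 in C, φ c ≠ 1 and rf gives M_c; N := M ⊓ ⨅_{c ≠ 1} M_c.
choice_inf. By (VRC) for φ c there is K₁ of finite index and a homomorphism R : K₁ → Multiplicative ℤ with R (φ c) = 1 ∈ ℤ (compose the retraction with zpowers (φ c) ≅ ℤ; φ c has infinite order).
 There is M' normal of finite index, M' ≤ M, M' ≤ K₁, with M'.comap φ ≤ zpowers c: C is a finite union of cosets of zpowers c; for each representative c_i ∉ zpowers c use sep for (φ c, φ c_i) and intersect.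
 (M'.comap φ has finite index in C, so) M'.comap φ = zpowers (c^n) with n ≥ 1. Let S ⊆ ℤ be the set of all R(x φ(c^n) x⁻¹), x ∈ A (note x φ(c^n) x⁻¹ ∈ M' ≤ K₁), D > 0 the positive generator of the subgroup of ℤ
 generated by S (n = R(φ(c^n)) ∈ S so it is not zero).
 For k ≥ 1 let L := {m ∈ M' | D k ∣ R m} (as a subgroup of A; finite index, it is the kernel of M' → ℤ/Dk) and N := L.normalCore. m ∈ N ↔ m ∈ M' and D k ∣ R(x m x⁻¹) for all x.
 N.comap φ ≤ M'.comap φ = zpowers (c^n), and φ(c^n)^t ∈ N ↔ ∀ s ∈ S, D k ∣ t s ↔ D k ∣ t D (D is an integer combination of elements of S, and D divides each s) ↔ k ∣ t.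
 So N.comap φ = zpowers (c^(n k)).
-/

/-- the exponent of the retraction onto an infinite cyclic subgroup -/
theorem choice_inf_aux_R {A : Type} [Group A] {K : Subgroup A} (g : A)
    (hg : ∀ n : ℤ, g ^ n = 1 → n = 0) (hle : Subgroup.zpowers g ≤ K)
    (ρ : K →* Subgroup.zpowers g) (hρ : ∀ h : Subgroup.zpowers g, ρ ⟨h, hle h.2⟩ = h) :
    ∃ R : K →* Multiplicative ℤ,
      R ⟨g, hle (Subgroup.mem_zpowers g)⟩ = Multiplicative.ofAdd 1 := by
  have inj : ∀ a b : ℤ, g ^ a = g ^ b → a = b := by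
    intro a b hab
    have : g ^ (a - b) = 1 := by rw [zpow_sub, hab, mul_inv_cancel]
    have := hg _ this
    omega
  have h1 : ∀ x : K, ∃ n : ℤ, g ^ n = ρ x := fun x => Subgroup.mem_zpowers_iff.mp (ρ x).2
  choose F hF using h1
  refine ⟨MonoidHom.mk' (fun x => Multiplicative.ofAdd (F x)) ?_, ?_⟩
  · intro x y
    show Multiplicative.ofAdd (F (x * y)) = Multiplicative.ofAdd (F x) * Multiplicative.ofAdd (F y)
    rw [← ofAdd_add]
    congr 1
    apply inj
    rw [hF, zpow_add, hF, hF, map_mul, Subgroup.coe_mul]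
  · show Multiplicative.ofAdd (F _) = _
    congr 1
    apply inj
    rw [hF, zpow_one]
    have := hρ ⟨g, Subgroup.mem_zpowers g⟩
    exact congrArg Subtype.val this

theorem choice_inf_aux_M {A C : Type} [Group A] [Group C] (hA : VRC A) (φ : C →* A)
    (hφ : Function.Injective φ) (c : C)
    (hfi : (Subgroup.zpowers c).FiniteIndex) (M K : Subgroup A) (hM : M.Normal)
    (hM' : M.FiniteIndex) (hK : K.FiniteIndex) :
    ∃ M' : Subgroup A, M'.Normal ∧ M'.FiniteIndex ∧ M' ≤ M ∧ M' ≤ K ∧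
      M'.comap φ ≤ Subgroup.zpowers c := by
  have h1 : ∀ q : C ⧸ Subgroup.zpowers c, ∃ N : Subgroup A, N.Normal ∧ N.FiniteIndex ∧
      ((q.out)⁻¹ ∉ Subgroup.zpowers c → ∀ n : ℤ, (φ c) ^ n * φ (q.out)⁻¹ ∉ N) := by
    intro q
    by_cases hq : (q.out)⁻¹ ∈ Subgroup.zpowers c
    · exact ⟨⊤, inferInstance, inferInstance, fun h => absurd hq h⟩
    · have h2 : φ (q.out)⁻¹ ∉ Subgroup.zpowers (φ c) := by
        intro h
        obtain ⟨n, hn⟩ := Subgroup.mem_zpowers_iff.mp h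
        rw [← map_zpow] at hn
        exact hq (Subgroup.mem_zpowers_iff.mpr ⟨n, hφ hn⟩)
      obtain ⟨N, hN1, hN2, hN3⟩ := sep hA (φ c) (φ (q.out)⁻¹) h2
      exact ⟨N, hN1, hN2, fun _ => hN3⟩
  choose Nq hq1 hq2 hq3 using h1
  have i1 : (⨅ q, Nq q).Normal := Subgroup.normal_iInf_normal hq1
  have i2 : (⨅ q, Nq q).FiniteIndex := Subgroup.finiteIndex_iInf hq2
  have i3 : (M ⊓ K.normalCore).Normal := Subgroup.normal_inf_normal _ _
  refine ⟨M ⊓ K.normalCore ⊓ ⨅ q, Nq q, Subgroup.normal_inf_normal _ _, inferInstance,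
    inf_le_left.trans inf_le_left, inf_le_left.trans (inf_le_right.trans K.normalCore_le), ?_⟩
  intro y hy
  by_contra hyc
  have hy2 : φ y ∈ ⨅ q, Nq q := (Subgroup.mem_inf.mp (Subgroup.mem_comap.mp hy)).2
  set q : C ⧸ Subgroup.zpowers c := QuotientGroup.mk y⁻¹ with hqdef
  have hy3 := (Subgroup.mem_iInf.mp hy2) q
  have h4 : (q.out)⁻¹ * y⁻¹ ∈ Subgroup.zpowers c := by
    rw [← QuotientGroup.eq, QuotientGroup.out_eq']
  obtain ⟨n, hn⟩ := Subgroup.mem_zpowers_iff.mp h4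
  have h5 : y = c ^ (-n) * (q.out)⁻¹ := by
    rw [zpow_neg, hn]
    group
  have h6 : (q.out)⁻¹ ∉ Subgroup.zpowers c := by
    intro h
    apply hyc
    rw [h5]
    exact (Subgroup.zpowers c).mul_mem (Subgroup.mem_zpowers_iff.mpr ⟨-n, rfl⟩) h
  apply hq3 q h6 (-n)
  rw [← map_zpow, ← map_mul, ← h5]
  exact hy3

theorem choice_inf {A C : Type} [Group A] [Group C] (hA : VRC A) (φ : C →* A)
    (hφ : Function.Injective φ) (c : C) (hc : ∀ n : ℤ, c ^ n = 1 → n = 0)
    (hfi : (Subgroup.zpowers c).FiniteIndex) (M : Subgroup A) (hM : M.Normal)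
    (hM' : M.FiniteIndex) : ∃ n : ℕ, 0 < n ∧ ∀ k : ℕ, 0 < k → ∃ N : Subgroup A, N.Normal ∧
      N.FiniteIndex ∧ N ≤ M ∧ N.comap φ = Subgroup.zpowers (c ^ (n * k)) := by
  obtain ⟨K, hK, hle, ρ, hρ⟩ := hA (φ c)
  have hg : ∀ n : ℤ, (φ c) ^ n = 1 → n = 0 := by
    intro n hn
    rw [← map_zpow, ← map_one φ] at hn
    exact hc n (hφ hn)
  obtain ⟨R, hR⟩ := choice_inf_aux_R (φ c) hg hle ρ hρ
  obtain ⟨M₁, hn1, hf1, hM1, hMK, hcom⟩ := choice_inf_aux_M hA φ hφ c hfi M K hM hM' hK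
  -- the exponent `n`
  obtain ⟨n, hn⟩ : ∃ n : ℕ, 0 < n ∧ φ c ^ n ∈ M₁ ∧ ∀ t : ℤ, φ c ^ t ∈ M₁ → (n : ℤ) ∣ t := by
    obtain ⟨m, hm0, -, hm⟩ := Subgroup.exists_pow_mem_of_index_ne_zero hf1.index_ne_zero (φ c)
    classical
    have hex : ∃ m : ℕ, 0 < m ∧ φ c ^ m ∈ M₁ := ⟨m, hm0, hm⟩
    refine ⟨Nat.find hex, (Nat.find_spec hex).1, (Nat.find_spec hex).2, ?_⟩
    intro t ht
    set n := Nat.find hex with hndef
    have hn0 : 0 < n := (Nat.find_spec hex).1
    have h1 : φ c ^ (t % n) ∈ M₁ := by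
      have : t % n = t - n * (t / n) := by rw [Int.emod_def]
      rw [this, zpow_sub, zpow_mul, zpow_natCast]
      exact M₁.mul_mem ht (M₁.inv_mem (M₁.zpow_mem (Nat.find_spec hex).2 _))
    have h2 : 0 ≤ t % n := Int.emod_nonneg _ (by exact_mod_cast hn0.ne')
    have h3 : t % n < n := Int.emod_lt_of_pos _ (by exact_mod_cast hn0)
    by_contra hdvd
    have h4 : t % n ≠ 0 := fun h => hdvd (Int.dvd_of_emod_eq_zero h)
    obtain ⟨e, he⟩ := Int.eq_ofNat_of_zero_le h2
    rw [he, zpow_natCast] at h1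
    have h5 : 0 < e := by
      rcases Nat.eq_zero_or_pos e with h | h
      · rw [h] at he
        exact absurd he h4
      · exact h
    have h6 : e < n := by rw [he] at h3; exact_mod_cast h3
    exact Nat.find_min hex h6 ⟨h5, h1⟩
  obtain ⟨hn0, hnM, hnd⟩ := hn
  set g : A := φ c ^ n with hgdef
  have hgx : ∀ x : A, x * g * x⁻¹ ∈ K := fun x => hMK (hn1.conj_mem g hnM x)
  -- the integers `s x`
  let s : A → ℤ := fun x => Multiplicative.toAdd (R ⟨x * g * x⁻¹, hgx x⟩)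
  have hs1 : s 1 = n := by
    have h1 : (⟨1 * g * 1⁻¹, hgx 1⟩ : K) = (⟨φ c, hle (Subgroup.mem_zpowers (φ c))⟩ : K) ^ n := by
      apply Subtype.ext
      simp [hgdef]
    show Multiplicative.toAdd (R ⟨1 * g * 1⁻¹, hgx 1⟩) = n
    rw [h1, map_pow, hR]
    simp
  have hst : ∀ (x : A) (t : ℤ) (hm : x * g ^ t * x⁻¹ ∈ K),
      Multiplicative.toAdd (R ⟨x * g ^ t * x⁻¹, hm⟩) = t * s x := by
    intro x t hm
    have h1 : (⟨x * g ^ t * x⁻¹, hm⟩ : K) = (⟨x * g * x⁻¹, hgx x⟩ : K) ^ t := by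
      apply Subtype.ext
      rw [Subgroup.coe_zpow]
      show x * g ^ t * x⁻¹ = (x * g * x⁻¹) ^ t
      rw [conj_zpow]
    rw [h1, map_zpow]
    show Multiplicative.toAdd (_ ^ t) = _
    rw [toAdd_zpow, smul_eq_mul]
  obtain ⟨D, hD⟩ := Int.subgroup_cyclic (AddSubgroup.closure (Set.range s))
  have hDs : ∀ x, D ∣ s x := by
    intro x
    have h1 : s x ∈ AddSubgroup.closure (Set.range s) := AddSubgroup.subset_closure ⟨x, rfl⟩
    rw [hD] at h1
    obtain ⟨e, he⟩ := AddSubgroup.mem_closure_singleton.mp h1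
    exact ⟨e, by rw [← he, smul_eq_mul, mul_comm]⟩
  have hD0 : D ≠ 0 := by
    intro h
    have := hDs 1
    rw [h, hs1, zero_dvd_iff] at this
    have : n = 0 := by exact_mod_cast this
    omega
  have hDmem : D ∈ AddSubgroup.closure (Set.range s) := by
    rw [hD]
    exact AddSubgroup.subset_closure rfl
  have key : ∀ (k : ℕ) (t : ℤ), (∀ x, D * k ∣ t * s x) ↔ (k : ℤ) ∣ t := by
    intro k t
    constructor
    · intro h
      have h1 : ∀ y ∈ AddSubgroup.closure (Set.range s), D * k ∣ t * y := by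
        intro y hy
        induction hy using AddSubgroup.closure_induction with
        | mem y hy => obtain ⟨x, rfl⟩ := hy; exact h x
        | zero => simp
        | add y z _ _ hy hz => rw [mul_add]; exact dvd_add hy hz
        | neg y _ hy => rw [mul_neg]; exact (dvd_neg).mpr hy
      have h2 := h1 D hDmem
      rw [mul_comm t D] at h2
      exact (mul_dvd_mul_iff_left hD0).mp h2
    · rintro ⟨e, rfl⟩ x
      obtain ⟨f, hf⟩ := hDs x
      exact ⟨e * f, by rw [hf]; ring⟩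
  refine ⟨n, hn0, fun k hk => ?_⟩
  -- the subgroup `L`
  let L : Subgroup A :=
    { carrier := {a | ∃ h : a ∈ K, D * k ∣ Multiplicative.toAdd (R ⟨a, h⟩)}
      one_mem' := by
        refine ⟨K.one_mem, ?_⟩
        have : (⟨1, K.one_mem⟩ : K) = 1 := rfl
        rw [this, map_one, toAdd_one]
        exact dvd_zero _
      mul_mem' := by
        rintro a b ⟨ha, ha'⟩ ⟨hb, hb'⟩
        refine ⟨K.mul_mem ha hb, ?_⟩
        have : (⟨a * b, K.mul_mem ha hb⟩ : K) = ⟨a, ha⟩ * ⟨b, hb⟩ := rfl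
        rw [this, map_mul, toAdd_mul]
        exact dvd_add ha' hb'
      inv_mem' := by
        rintro a ⟨ha, ha'⟩
        refine ⟨K.inv_mem ha, ?_⟩
        have : (⟨a⁻¹, K.inv_mem ha⟩ : K) = (⟨a, ha⟩ : K)⁻¹ := rfl
        rw [this, map_inv, toAdd_inv]
        exact (dvd_neg).mpr ha' }
  have hLK : L ≤ K := by
    rintro a ⟨h, -⟩
    exact h
  have hLfin : L.FiniteIndex := by
    have hne : NeZero (D * k).natAbs := ⟨by
      rw [Int.natAbs_ne_zero]
      exact mul_ne_zero hD0 (by exact_mod_cast hk.ne')⟩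
    let f : K →* Multiplicative (ZMod (D * k).natAbs) :=
      (AddMonoidHom.toMultiplicative (Int.castAddHom (ZMod (D * k).natAbs))).comp R
    have h1 : L.subgroupOf K = f.ker := by
      ext ⟨x, hx⟩
      rw [Subgroup.mem_subgroupOf, MonoidHom.mem_ker]
      have e1 : f ⟨x, hx⟩ = Multiplicative.ofAdd
          ((Multiplicative.toAdd (R ⟨x, hx⟩) : ℤ) : ZMod (D * k).natAbs) := rfl
      rw [e1, ofAdd_eq_one, ZMod.intCast_zmod_eq_zero_iff_dvd, Int.natAbs_dvd]
      constructor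
      · rintro ⟨_, h⟩
        exact h
      · intro h
        exact ⟨hx, h⟩
    have hfinite : Finite (Multiplicative (ZMod (D * k).natAbs)) := by
      have : Finite (ZMod (D * k).natAbs) := inferInstance
      exact this
    have h2 : (L.subgroupOf K).FiniteIndex := by
      rw [h1]
      exact Subgroup.finiteIndex_ker f
    constructor
    rw [← Subgroup.relIndex_mul_index hLK]
    exact mul_ne_zero h2.index_ne_zero hK.index_ne_zero
  have i1 : L.normalCore.Normal := inferInstance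
  refine ⟨L.normalCore ⊓ M₁, Subgroup.normal_inf_normal _ _, inferInstance,
    inf_le_right.trans hM1, ?_⟩
  have hck : c ^ (n * k) = (c ^ n) ^ k := by rw [pow_mul]
  ext y
  rw [Subgroup.mem_comap, Subgroup.mem_inf]
  constructor
  · rintro ⟨hy1, hy2⟩
    obtain ⟨a, ha⟩ := Subgroup.mem_zpowers_iff.mp (hcom hy2)
    have h1 : (n : ℤ) ∣ a := by
      apply hnd
      rw [← map_zpow, ha]
      exact hy2
    obtain ⟨t, rfl⟩ := h1
    have hφy : φ y = g ^ t := by
      rw [← ha, map_zpow, zpow_mul, zpow_natCast]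
    have h2 : ∀ x, D * k ∣ t * s x := by
      intro x
      have h3 : x * φ y * x⁻¹ ∈ L := hy1 x
      rw [hφy] at h3
      obtain ⟨h4, h5⟩ := h3
      rwa [hst] at h5
    obtain ⟨e, rfl⟩ := (key k t).mp h2
    rw [Subgroup.mem_zpowers_iff]
    refine ⟨e, ?_⟩
    rw [← ha, ← zpow_natCast, ← zpow_mul]
    congr 1
    push_cast
    ring
  · intro hy
    obtain ⟨e, he⟩ := Subgroup.mem_zpowers_iff.mp hy
    have hφy : φ y = g ^ ((k : ℤ) * e) := by
      rw [← he, map_zpow, map_pow, pow_mul, zpow_mul, zpow_natCast]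
    constructor
    · intro x
      rw [hφy]
      have h3 : x * g ^ ((k : ℤ) * e) * x⁻¹ ∈ K :=
        hMK (hn1.conj_mem _ (M₁.zpow_mem hnM _) x)
      refine ⟨h3, ?_⟩
      rw [hst]
      exact (key k _).mpr ⟨e, rfl⟩ x
    · rw [hφy]
      exact M₁.zpow_mem hnM _

theorem choice_fin {A C : Type} [Group A] [Group C] [Finite C] (hA : VRC A) (φ : C →* A)
    (hφ : Function.Injective φ) (M : Subgroup A) (hM : M.Normal) (hM' : M.FiniteIndex) :
    ∃ N : Subgroup A, N.Normal ∧ N.FiniteIndex ∧ N ≤ M ∧ N.comap φ = ⊥ := by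
  have h1 : ∀ c : C, ∃ N : Subgroup A, N.Normal ∧ N.FiniteIndex ∧ (c ≠ 1 → φ c ∉ N) := by
    intro c
    by_cases hc : c = 1
    · exact ⟨⊤, inferInstance, inferInstance, fun h => absurd hc h⟩
    · have h2 : φ c ≠ 1 := by
        intro h
        rw [← map_one φ] at h
        exact hc (hφ h)
      obtain ⟨N, hN1, hN2, hN3⟩ := rf hA (φ c) h2
      exact ⟨N, hN1, hN2, fun _ => hN3⟩
  choose Nc h1 h2 h3 using h1
  have i1 : (⨅ c, Nc c).Normal := Subgroup.normal_iInf_normal h1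
  have i2 : (⨅ c, Nc c).FiniteIndex := Subgroup.finiteIndex_iInf h2
  refine ⟨M ⊓ ⨅ c, Nc c, Subgroup.normal_inf_normal _ _, inferInstance, inf_le_left, ?_⟩
  rw [eq_bot_iff]
  intro y hy
  rw [Subgroup.mem_bot]
  by_contra hne
  exact h3 y hne ((Subgroup.mem_iInf.mp (Subgroup.mem_inf.mp (Subgroup.mem_comap.mp hy)).2) y)

end Pool.Agent.Helper485_VRC
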