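import Mathlib
import Pool.Agent.Helper485_VRC.Defs

set_option autoImplicit false

namespace Pool.Agent.Helper485_VRC
section cyc
variable {P Q C G : Type} [Group P] [Group Q] [Group C] [Group G]

/-- value of a word -/
def cycEv (α : P →* G) (β : Q →* G) (w : List (P ⊕ Q)) : G := (w.map (Sum.elim α β)).prod

theorem cycEv_append (α : P →* G) (β : Q →* G) (u v : List (P ⊕ Q)) :
    cycEv α β (u ++ v) = cycEv α β u * cycEv α β v := by
  simp [cycEv]

theorem cycEv_surj (α : P →* G) (β : Q →* G) (hgen : α.range ⊔ β.range = ⊤) (g : G) :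
    ∃ w, cycEv α β w = g := by
  have hg : g ∈ α.range ⊔ β.range := by rw [hgen]; trivial
  rw [← Subgroup.closure_eq α.range, ← Subgroup.closure_eq β.range, ← Subgroup.closure_union] at hg
  induction hg using Subgroup.closure_induction with
  | mem x hx =>
    rcases hx with ⟨p, rfl⟩ | ⟨q, rfl⟩
    · exact ⟨[Sum.inl p], by simp [cycEv]⟩
    · exact ⟨[Sum.inr q], by simp [cycEv]⟩
  | one => exact ⟨[], by simp [cycEv]⟩
  | mul x y _ _ hx hy =>
    obtain ⟨u, rfl⟩ := hx
    obtain ⟨v, rfl⟩ := hy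
    exact ⟨u ++ v, cycEv_append α β u v⟩
  | inv x h0 hx =>
    obtain ⟨u, rfl⟩ := hx
    clear h0
    refine ⟨(u.map (Sum.map (fun p => p⁻¹) (fun q => q⁻¹))).reverse, ?_⟩
    induction u with
    | nil => simp [cycEv]
    | cons a t ih =>
      rw [List.map_cons, List.reverse_cons, cycEv_append, ih]
      have h1 : cycEv α β (a :: t) = Sum.elim α β a * cycEv α β t := by simp [cycEv]
      rw [h1, mul_inv_rev]
      congr 1
      rcases a with p | q <;> simp [cycEv]

/-- words of minimal length among the conjugates -/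
def cycMin (α : P →* G) (β : Q →* G) (g : G) (n : ℕ) (w : List (P ⊕ Q)) : Prop :=
  (∃ x, cycEv α β w = x * g * x⁻¹) ∧ w.length = n

theorem cyc_rot (α : P →* G) (β : Q →* G) (g : G) (n : ℕ) (u v : List (P ⊕ Q))
    (h : cycMin α β g n (u ++ v)) : cycMin α β g n (v ++ u) := by
  obtain ⟨⟨x, hx⟩, hl⟩ := h
  refine ⟨⟨(cycEv α β u)⁻¹ * x, ?_⟩, by rw [← hl]; simp; omega⟩
  rw [cycEv_append] at hx ⊢
  have : cycEv α β v = (cycEv α β u)⁻¹ * (x * g * x⁻¹) := by rw [← hx]; group
  rw [this]
  group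

theorem cyc_head (i : C →* P) (j : C →* Q) (α : P →* G) (β : Q →* G)
    (hc : ∀ c, α (i c) = β (j c)) (g : G) (n : ℕ)
    (hmin : ∀ w x, cycEv α β w = x * g * x⁻¹ → n ≤ w.length) (a b : P ⊕ Q) (t : List (P ⊕ Q))
    (h : cycMin α β g n (a :: b :: t)) :
    (∃ p q, a = Sum.inl p ∧ b = Sum.inr q ∧ p ∉ i.range) ∨
      ∃ q p, a = Sum.inr q ∧ b = Sum.inl p ∧ q ∉ j.range := by
  obtain ⟨⟨x, hx⟩, hl⟩ := h
  have key : ∀ s : P ⊕ Q, Sum.elim α β s = Sum.elim α β a * Sum.elim α β b → False := by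
    intro s hs
    have := hmin (s :: t) x (by
      rw [← hx]
      simp only [cycEv, List.map_cons, List.prod_cons]
      rw [hs, mul_assoc])
    simp only [List.length_cons] at this hl
    omega
  rcases a with p | q <;> rcases b with p' | q'
  · exact (key (Sum.inl (p * p')) (by simp)).elim
  · left
    refine ⟨p, q', rfl, rfl, ?_⟩
    rintro ⟨c, rfl⟩
    exact key (Sum.inr (j c * q')) (by simp [hc])
  · right
    refine ⟨q, p', rfl, rfl, ?_⟩
    rintro ⟨c, rfl⟩
    exact key (Sum.inl (i c * p')) (by simp [hc])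
  · exact (key (Sum.inr (q * q')) (by simp)).elim

theorem cyc_pairs (i : C →* P) (j : C →* Q) (α : P →* G) (β : Q →* G)
    (hc : ∀ c, α (i c) = β (j c)) (g : G) (n : ℕ) (hn : 2 ≤ n)
    (hmin : ∀ w x, cycEv α β w = x * g * x⁻¹ → n ≤ w.length) :
    ∀ (N : ℕ) (v u : List (P ⊕ Q)), v.length ≤ N → cycMin α β g n (u ++ v) →
    (u = [] ∨ ∃ p t, u = Sum.inl p :: t) → (v = [] ∨ ∃ p t, v = Sum.inl p :: t) →
    ∃ l : List (P × Q), v = l.flatMap (fun a => [Sum.inl a.1, Sum.inr a.2]) ∧
      ∀ a ∈ l, a.1 ∉ i.range ∧ a.2 ∉ j.range := by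
  intro N
  induction N with
  | zero =>
    intro v u hv _ _ _
    have : v = [] := List.length_eq_zero_iff.1 (by omega)
    exact ⟨[], by simp [this], by simp⟩
  | succ N ih =>
    intro v u hv hm hu hv'
    rcases hv' with rfl | ⟨p, v', rfl⟩
    · exact ⟨[], by simp, by simp⟩
    · have h1 := cyc_rot α β g n u _ hm
      rw [List.cons_append] at h1
      rcases v' with _ | ⟨b, v''⟩
      · -- the next letter would be the first one
        exfalso
        rw [List.nil_append] at h1
        rcases hu with rfl | ⟨p', t, rfl⟩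
        · have := h1.2
          simp at this
          omega
        · rcases cyc_head i j α β hc g n hmin _ _ _ h1 with ⟨_, _, _, h, _⟩ | ⟨_, _, h, _, _⟩
          · simp at h
          · simp at h
      · rw [List.cons_append] at h1
        rcases cyc_head i j α β hc g n hmin _ _ _ h1 with ⟨p₁, q, h2, h3, h4⟩ | ⟨_, _, h, _, _⟩
        · have h2' : p = p₁ := by simpa using h2
          subst h2' h3
          -- rotate once
          have h5 := cyc_rot α β g n [Sum.inl p] (Sum.inr q :: (v'' ++ u)) h1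
          rw [List.cons_append] at h5
          have h6 : q ∉ j.range ∧ (v'' = [] ∨ ∃ p t, v'' = Sum.inl p :: t) := by
            rcases v'' with _ | ⟨c, v3⟩
            · rcases u with _ | ⟨d, u'⟩
              · simp only [List.nil_append] at h5
                rcases cyc_head i j α β hc g n hmin _ _ _ h5 with ⟨_, _, h, _, _⟩ | ⟨q₁, _, h, _, h7⟩
                · simp at h
                · have : q = q₁ := by simpa using h
                  subst this
                  exact ⟨h7, Or.inl rfl⟩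
              · simp only [List.nil_append, List.cons_append] at h5
                rcases cyc_head i j α β hc g n hmin _ _ _ h5 with ⟨_, _, h, _, _⟩ | ⟨q₁, _, h, _, h7⟩
                · simp at h
                · have : q = q₁ := by simpa using h
                  subst this
                  exact ⟨h7, Or.inl rfl⟩
            · simp only [List.cons_append] at h5
              rcases cyc_head i j α β hc g n hmin _ _ _ h5 with ⟨_, _, h, _, _⟩ | ⟨q₁, p₂, h, h8, h7⟩
              · simp at h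
              · have : q = q₁ := by simpa using h
                subst this
                exact ⟨h7, Or.inr ⟨p₂, v3, by rw [h8]⟩⟩
          obtain ⟨l, hl1, hl2⟩ := ih v'' (u ++ [Sum.inl p, Sum.inr q])
            (by simp at hv; omega) (by simpa using hm)
            (Or.inr (by
              rcases hu with rfl | ⟨p', t, rfl⟩
              · exact ⟨p, [Sum.inr q], rfl⟩
              · exact ⟨p', t ++ [Sum.inl p, Sum.inr q], rfl⟩)) h6.2
          refine ⟨(p, q) :: l, ?_, ?_⟩
          · rw [List.flatMap_cons, ← hl1]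
            rfl
          · intro a ha
            rcases List.mem_cons.1 ha with rfl | ha
            · exact ⟨h4, h6.1⟩
            · exact hl2 a ha
        · simp at h

end cyc

theorem cyc_red {P Q C G : Type} [Group P] [Group Q] [Group C] [Group G]
    (i : C →* P) (j : C →* Q) (α : P →* G) (β : Q →* G) (hc : ∀ c, α (i c) = β (j c))
    (hgen : α.range ⊔ β.range = ⊤) (g : G) :
    ∃ x : G, (∃ p, x * g * x⁻¹ = α p) ∨ (∃ q, x * g * x⁻¹ = β q) ∨
      ∃ l : List (P × Q), l ≠ [] ∧ (∀ a ∈ l, a.1 ∉ i.range ∧ a.2 ∉ j.range) ∧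
        x * g * x⁻¹ = (l.map fun a => α a.1 * β a.2).prod := by
  classical
  have hex : ∃ n, ∃ w x, cycEv α β w = x * g * x⁻¹ ∧ w.length = n := by
    obtain ⟨w, hw⟩ := cycEv_surj α β hgen g
    exact ⟨w.length, w, 1, by simpa using hw, rfl⟩
  obtain ⟨w, x, hw, hl⟩ := Nat.find_spec hex
  have hmin : ∀ w x, cycEv α β w = x * g * x⁻¹ → Nat.find hex ≤ w.length := by
    intro w x h
    exact Nat.find_min' hex ⟨w, x, h, rfl⟩
  generalize Nat.find hex = n at hl hmin
  have hm : cycMin α β g n w := ⟨⟨x, hw⟩, hl⟩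
  -- the general case
  have main : ∀ (w : List (P ⊕ Q)), cycMin α β g n w → 2 ≤ n → (∃ p t, w = Sum.inl p :: t) →
      ∃ x : G, ∃ l : List (P × Q), l ≠ [] ∧ (∀ a ∈ l, a.1 ∉ i.range ∧ a.2 ∉ j.range) ∧
        x * g * x⁻¹ = (l.map fun a => α a.1 * β a.2).prod := by
    intro w hm hn hw
    obtain ⟨l, hl1, hl2⟩ := cyc_pairs i j α β hc g n hn hmin w.length w [] le_rfl (by simpa using hm)
      (Or.inl rfl) (Or.inr hw)
    obtain ⟨⟨x, hx⟩, hlen⟩ := hm
    refine ⟨x, l, ?_, hl2, ?_⟩
    · rintro rfl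
      rw [hl1] at hlen
      simp at hlen
      omega
    · rw [← hx, hl1]
      clear hl1 hl2
      induction l with
      | nil => simp [cycEv]
      | cons a l ih =>
        rw [List.flatMap_cons, cycEv_append, ih]
        simp [cycEv]
  rcases w with _ | ⟨a, _ | ⟨b, t⟩⟩
  · refine ⟨x, Or.inl ⟨1, ?_⟩⟩
    rw [← hw]; simp [cycEv]
  · rcases a with p | q
    · exact ⟨x, Or.inl ⟨p, by rw [← hw]; simp [cycEv]⟩⟩
    · exact ⟨x, Or.inr (Or.inl ⟨q, by rw [← hw]; simp [cycEv]⟩)⟩
  · have hn : 2 ≤ n := by simp at hl; omega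
    rcases cyc_head i j α β hc g n hmin _ _ _ hm with ⟨p, q, rfl, rfl, -⟩ | ⟨q, p, rfl, rfl, -⟩
    · obtain ⟨y, l, h⟩ := main _ hm hn ⟨p, _, rfl⟩
      exact ⟨y, Or.inr (Or.inr ⟨l, h⟩)⟩
    · have h5 := cyc_rot α β g n [Sum.inr q] (Sum.inl p :: t) hm
      obtain ⟨y, l, h⟩ := main _ h5 hn ⟨p, _, rfl⟩
      exact ⟨y, Or.inr (Or.inr ⟨l, h⟩)⟩

end Pool.Agent.Helper485_VRC
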