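import Mathlib
import Pool.Agent.Helper485_VRC.Defs

set_option autoImplicit false

namespace Pool.Agent.Helper485_VRC
theorem exists_equivariant_equiv {Γ E E' I : Type} [Group Γ] [MulAction Γ E] [MulAction Γ E']
    (e : I → E) (e' : I → E') (h : ∀ x, ∃ (i : I) (g : Γ), x = g • e i)
    (h' : ∀ x, ∃ (i : I) (g : Γ), x = g • e' i) (hi : ∀ i k (g : Γ), g • e i = e k → i = k)
    (hi' : ∀ i k (g : Γ), g • e' i = e' k → i = k)
    (hs : ∀ i (g : Γ), g • e i = e i ↔ g • e' i = e' i) :
    ∃ θ : E ≃ E', (∀ (g : Γ) x, θ (g • x) = g • θ x) ∧ ∀ i, θ (e i) = e' i := by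
  have key : ∀ (A B : Type) [MulAction Γ A] [MulAction Γ B] (a : I → A) (b : I → B),
      (∀ x, ∃ (i : I) (g : Γ), x = g • a i) → (∀ i k (g : Γ), g • a i = a k → i = k) →
      (∀ i (g : Γ), g • a i = a i → g • b i = b i) →
      ∃ θ : A → B, ∀ (g : Γ) i, θ (g • a i) = g • b i := by
    intro A B _ _ a b ha hia hab
    choose idx γ hγ using ha
    refine ⟨fun x => γ x • b (idx x), fun g i => ?_⟩
    have h1 := hγ (g • a i)
    have h2 : ((γ (g • a i))⁻¹ * g) • a i = a (idx (g • a i)) := by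
      rw [mul_smul, inv_smul_eq_iff]; exact h1
    have h3 := hia _ _ _ h2
    have h4 : ((γ (g • a i))⁻¹ * g) • a i = a i := h2.trans (by rw [← h3])
    have h5 := hab _ _ h4
    change γ (g • a i) • b (idx (g • a i)) = g • b i
    rw [← h3]
    rw [mul_smul, inv_smul_eq_iff] at h5
    exact h5.symm
  obtain ⟨θ, hθ⟩ := key E E' e e' h hi (fun i g => (hs i g).1)
  obtain ⟨θ', hθ'⟩ := key E' E e' e h' hi' (fun i g => (hs i g).2)
  refine ⟨⟨θ, θ', ?_, ?_⟩, ?_, ?_⟩
  · intro x
    obtain ⟨i, g, rfl⟩ := h x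
    rw [hθ, hθ']
  · intro x
    obtain ⟨i, g, rfl⟩ := h' x
    rw [hθ', hθ]
  · intro g x
    obtain ⟨i, γ, rfl⟩ := h x
    change θ (g • γ • e i) = g • θ (γ • e i)
    rw [← mul_smul, hθ, hθ, mul_smul]
  · intro i
    have := hθ 1 i
    rw [one_smul, one_smul] at this
    exact this

theorem exists_reps {P C : Type} [Group P] [Group C] (i : C →* P) (N : Subgroup P)
    (hN : N.Normal) (hN' : N.FiniteIndex) : ∃ (J : Type) (_ : Finite J) (r : J → P),
      ∀ p : P, ∃! x : J, ∃ c : C, ∃ ν ∈ N, p = i c * r x * ν := by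
  let L : Subgroup P := i.range ⊔ N
  have hL : L.FiniteIndex := Subgroup.finiteIndex_of_le (show N ≤ L from le_sup_right)
  have hfin : Finite (Quotient (QuotientGroup.rightRel L)) := by
    have : Finite (P ⧸ L) := Subgroup.finite_quotient_of_finiteIndex
    exact Finite.of_equiv _ (QuotientGroup.quotientRightRelEquivQuotientLeftRel L).symm
  refine ⟨Quotient (QuotientGroup.rightRel L), hfin, Quotient.out, fun p => ?_⟩
  -- membership in `i c * r * ν` is membership in the right coset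
  have hmem : ∀ r : P, (∃ c : C, ∃ ν ∈ N, p = i c * r * ν) ↔ p * r⁻¹ ∈ L := by
    intro r
    constructor
    · rintro ⟨c, ν, hν, rfl⟩
      have : i c * r * ν * r⁻¹ = i c * (r * ν * r⁻¹) := by group
      rw [this]
      exact L.mul_mem ((le_sup_left : i.range ≤ L) ⟨c, rfl⟩)
        ((le_sup_right : N ≤ L) (hN.conj_mem ν hν r))
    · intro h
      have h' : ∃ y ∈ i.range, ∃ z ∈ N, y * z = p * r⁻¹ := by
        have := Subgroup.mul_normal i.range N
        have h2 : p * r⁻¹ ∈ ((i.range ⊔ N : Subgroup P) : Set P) := h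
        rw [this] at h2
        exact h2
      obtain ⟨_, ⟨c, rfl⟩, ν, hν, hcν⟩ := h'
      refine ⟨c, r⁻¹ * ν * r, ?_, ?_⟩
      · have := hN.conj_mem ν hν r⁻¹
        rwa [inv_inv] at this
      · have hcν' : i c * ν = p * r⁻¹ := hcν
        have : i c * r * (r⁻¹ * ν * r) = (i c * ν) * r := by group
        rw [this, hcν']; group
  refine ⟨Quotient.mk _ p, ?_, ?_⟩
  · change ∃ c : C, ∃ ν ∈ N, p = i c * (Quotient.mk (QuotientGroup.rightRel L) p).out * ν
    rw [hmem]
    have := Quotient.mk_out (s := QuotientGroup.rightRel L) p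
    exact QuotientGroup.rightRel_apply.1 this
  · intro y hy
    have hy' : ∃ c : C, ∃ ν ∈ N, p = i c * y.out * ν := hy
    rw [hmem] at hy'
    rw [← Quotient.out_eq y]
    exact Quotient.sound (QuotientGroup.rightRel_apply.2 hy')

end Pool.Agent.Helper485_VRC
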