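import Mathlib
import Pool.Agent.Helper485_VRC.Defs
import Pool.Agent.Helper485_VRC.Match

set_option autoImplicit false

namespace Pool.Agent.Helper485_VRC


/-! Auxiliary: induced sets. -/

section VR7
variable {P D J C : Type} [Group P] [CommGroup D] [Group C] (N : Subgroup P) (F : J → (N →* D))

/-- the relation of the induced set -/
def VR7_setoid : Setoid (J × P × D) where
  r x y := x.1 = y.1 ∧ ∃ ν : N, y.2.1 = x.2.1 * ν ∧ x.2.2 = y.2.2 * F x.1 ν
  iseqv :=
    { refl := fun x => ⟨rfl, 1, by simp, by simp⟩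
      symm := by
        rintro ⟨y, a, d⟩ ⟨y', a', d'⟩ ⟨h1, ν, h2, h3⟩
        simp only at h1 h2 h3
        subst h1
        refine ⟨rfl, ν⁻¹, ?_, ?_⟩
        · simp [h2]
        · simp [h3]
      trans := by
        rintro ⟨y, a, d⟩ ⟨y', a', d'⟩ ⟨y'', a'', d''⟩ ⟨h1, ν, h2, h3⟩ ⟨h4, μ, h5, h6⟩
        simp only at h1 h2 h3 h4 h5 h6
        subst h1
        subst h4
        refine ⟨rfl, ν * μ, ?_, ?_⟩
        · simp [h2, h5, mul_assoc]
        · simp only [map_mul]
          rw [h3, h6, mul_assoc, mul_comm (F y μ) (F y ν)] }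

/-- the induced set -/
def VR7_E : Type := Quotient (VR7_setoid N F)

/-- the class of a triple -/
def VR7_mk (y : J) (a : P) (d : D) : VR7_E N F := Quotient.mk (VR7_setoid N F) (y, a, d)

theorem VR7_ex (z : VR7_E N F) : ∃ y a d, z = VR7_mk N F y a d := by
  induction z using Quotient.inductionOn with
  | h t => exact ⟨t.1, t.2.1, t.2.2, rfl⟩

theorem VR7_eq (y y' : J) (a a' : P) (d d' : D) : VR7_mk N F y a d = VR7_mk N F y' a' d' ↔
    y = y' ∧ ∃ ν : N, a' = a * ν ∧ d = d' * F y ν := by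
  constructor
  · intro h
    exact Quotient.exact h
  · intro h
    exact Quotient.sound h

/-- the action of the group -/
instance VR7_actP : MulAction P (VR7_E N F) where
  smul p := Quotient.map (fun t => (t.1, p * t.2.1, t.2.2)) (by
    rintro ⟨y, a, d⟩ ⟨y', a', d'⟩ ⟨h1, ν, h2, h3⟩
    exact ⟨h1, ν, by simp only at h2; simp [h2, mul_assoc], h3⟩)
  one_smul z := by
    obtain ⟨y, a, d, rfl⟩ := VR7_ex N F z
    show VR7_mk N F y (1 * a) d = _
    rw [one_mul]
  mul_smul p q z := by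
    obtain ⟨y, a, d, rfl⟩ := VR7_ex N F z
    show VR7_mk N F y (p * q * a) d = VR7_mk N F y (p * (q * a)) d
    rw [mul_assoc]

/-- the action of the commutative group -/
instance VR7_actD : MulAction D (VR7_E N F) where
  smul e := Quotient.map (fun t => (t.1, t.2.1, e * t.2.2)) (by
    rintro ⟨y, a, d⟩ ⟨y', a', d'⟩ ⟨h1, ν, h2, h3⟩
    exact ⟨h1, ν, h2, by simp only at h3; simp [h3, mul_assoc]⟩)
  one_smul z := by
    obtain ⟨y, a, d, rfl⟩ := VR7_ex N F z
    show VR7_mk N F y a (1 * d) = _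
    rw [one_mul]
  mul_smul p q z := by
    obtain ⟨y, a, d, rfl⟩ := VR7_ex N F z
    show VR7_mk N F y a (p * q * d) = VR7_mk N F y a (p * (q * d))
    rw [mul_assoc]

theorem VR7_smulP (p : P) (y : J) (a : P) (d : D) :
    p • VR7_mk N F y a d = VR7_mk N F y (p * a) d := rfl

theorem VR7_smulD (e : D) (y : J) (a : P) (d : D) :
    e • VR7_mk N F y a d = VR7_mk N F y a (e * d) := rfl

theorem VR7_comm (p : P) (e : D) (z : VR7_E N F) : p • e • z = e • p • z := by
  obtain ⟨y, a, d, rfl⟩ := VR7_ex N F z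
  rfl

theorem VR7_free (e : D) (z : VR7_E N F) (h : e • z = z) : e = 1 := by
  obtain ⟨y, a, d, rfl⟩ := VR7_ex N F z
  rw [VR7_smulD, VR7_eq] at h
  obtain ⟨-, ν, h1, h2⟩ := h
  have h3 : ν = 1 := by
    apply Subtype.ext
    exact mul_left_cancel (a := a) (by rw [← h1]; simp)
  rw [h3, map_one, mul_one] at h2
  exact mul_right_cancel (b := d) (by rw [h2, one_mul])

theorem VR7_stab (hN : N.Normal) (p : P) (z : VR7_E N F) :
    (∃ d : D, p • z = d • z) ↔ p ∈ N := by
  obtain ⟨y, a, d, rfl⟩ := VR7_ex N F z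
  constructor
  · rintro ⟨e, h⟩
    rw [VR7_smulD, VR7_smulP, VR7_eq] at h
    obtain ⟨-, ν, h1, -⟩ := h
    have h2 : p = a * (ν : P)⁻¹ * a⁻¹ := by
      have h3 : a * (ν : P)⁻¹ = p * a := by
        rw [mul_inv_eq_iff_eq_mul]
        exact h1
      rw [h3]; group
    rw [h2]
    exact hN.conj_mem _ (N.inv_mem ν.2) a
  · intro hp
    have h1 : a⁻¹ * p * a ∈ N := by
      have := hN.conj_mem p hp a⁻¹
      simpa using this
    refine ⟨F y ⟨a⁻¹ * p * a, h1⟩, ?_⟩
    rw [VR7_smulD, VR7_smulP, VR7_eq]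
    refine ⟨rfl, ⟨a⁻¹ * p * a, h1⟩⁻¹, ?_, ?_⟩
    · simp [mul_assoc]
    · rw [map_inv]
      simp [mul_comm, mul_assoc]

theorem VR7_base (y : J) (ν : N) :
    (ν : P) • VR7_mk N F y 1 1 = F y ν • VR7_mk N F y 1 1 := by
  rw [VR7_smulD, VR7_smulP, eq_comm, VR7_eq]
  exact ⟨rfl, ν, by simp, by simp⟩

theorem VR7_fin [Finite J] (hf : N.FiniteIndex) :
    ∃ S : Finset (VR7_E N F), ∀ x, ∃ s ∈ S, ∃ d : D, x = d • s := by
  classical
  have : Finite (P ⧸ N) := Subgroup.finite_quotient_of_finiteIndex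
  have := Fintype.ofFinite J
  have := Fintype.ofFinite (P ⧸ N)
  refine ⟨(Finset.univ : Finset (J × (P ⧸ N))).image (fun t => VR7_mk N F t.1 t.2.out 1), ?_⟩
  intro x
  obtain ⟨y, a, d, rfl⟩ := VR7_ex N F x
  have h1 : ((QuotientGroup.mk a : P ⧸ N).out)⁻¹ * a ∈ N := by
    rw [← QuotientGroup.eq]
    exact QuotientGroup.out_eq' _
  refine ⟨VR7_mk N F y (QuotientGroup.mk a : P ⧸ N).out 1, ?_,
    d * F y ⟨((QuotientGroup.mk a : P ⧸ N).out)⁻¹ * a, h1⟩, ?_⟩
  · exact Finset.mem_image.mpr ⟨(y, QuotientGroup.mk a), Finset.mem_univ _, rfl⟩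
  · rw [VR7_smulD, eq_comm, VR7_eq]
    exact ⟨rfl, ⟨((QuotientGroup.mk a : P ⧸ N).out)⁻¹ * a, h1⟩, by simp, by simp⟩

/-- the action of the product group -/
@[instance_reducible] def VR7_actG (i : C →* P) : MulAction (C × D) (VR7_E N F) where
  smul g z := i g.1 • g.2 • z
  one_smul z := by
    show i 1 • (1 : D) • z = z
    rw [map_one, one_smul, one_smul]
  mul_smul g h z := by
    show i (g.1 * h.1) • (g.2 * h.2) • z = i g.1 • g.2 • i h.1 • h.2 • z
    rw [map_mul, mul_smul, mul_smul, VR7_comm N F (i h.1) g.2]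

theorem VR7_cover {K : Type} (i : C →* P) (r : K → P)
    (hr : ∀ p : P, ∃! x : K, ∃ c : C, ∃ ν ∈ N, p = i c * r x * ν) (z : VR7_E N F) :
    ∃ (x : K) (y : J) (c : C) (d : D), z = i c • d • VR7_mk N F y (r x) 1 := by
  obtain ⟨y, a, d, rfl⟩ := VR7_ex N F z
  obtain ⟨x, ⟨c, ν, hν, h1⟩, -⟩ := hr a
  refine ⟨x, y, c, d * F y ⟨ν, hν⟩, ?_⟩
  rw [VR7_smulD, VR7_smulP, eq_comm, VR7_eq]
  exact ⟨rfl, ⟨ν, hν⟩, h1, by simp⟩

theorem VR7_inj {K : Type} (i : C →* P) (r : K → P)
    (hr : ∀ p : P, ∃! x : K, ∃ c : C, ∃ ν ∈ N, p = i c * r x * ν) (x x' : K) (y y' : J) (c : C)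
    (d : D) (h : i c • d • VR7_mk N F y (r x) 1 = VR7_mk N F y' (r x') 1) : x = x' ∧ y = y' := by
  rw [VR7_smulD, VR7_smulP, VR7_eq] at h
  obtain ⟨h1, ν, h2, -⟩ := h
  refine ⟨?_, h1⟩
  exact (hr (r x')).unique ⟨c, ν, ν.2, h2⟩ ⟨1, 1, N.one_mem, by simp⟩

theorem VR7_stabG (hN : N.Normal) (p a : P) (y : J) (d : D) :
    p • d • VR7_mk N F y a 1 = VR7_mk N F y a 1 ↔
      ∃ h : p ∈ N, ∃ u : N, (u : P) = a⁻¹ * p * a ∧ d * F y u = 1 := by
  rw [VR7_smulD, VR7_smulP, VR7_eq]
  constructor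
  · rintro ⟨-, ν, h1, h2⟩
    have h3 : (ν : P)⁻¹ = a⁻¹ * p * a := by
      rw [inv_eq_iff_eq_inv]
      have h4 : (ν : P) = (p * a)⁻¹ * a := by
        rw [eq_inv_mul_iff_mul_eq]
        exact h1.symm
      rw [h4]
      group
    have h5 : p ∈ N := by
      have h6 : p = a * (ν : P)⁻¹ * a⁻¹ := by
        rw [h3]; group
      rw [h6]
      exact hN.conj_mem _ (N.inv_mem ν.2) a
    refine ⟨h5, ν⁻¹, by simpa using h3, ?_⟩
    rw [mul_one] at h2
    rw [h2, map_inv]
    simp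
  · rintro ⟨h5, u, h1, h2⟩
    refine ⟨rfl, u⁻¹, ?_, ?_⟩
    · rw [Subgroup.coe_inv, h1]
      group
    · rw [map_inv, one_mul, mul_one]
      exact eq_inv_of_mul_eq_one_left h2

end VR7

/-! TARGET.
E_P := quotient of J' × P × D by the relation (y, a * ν, d) ~ (y, a, d * F y ν) for ν : N (that is: (y,a,d) ~ (y',a',d') iff y = y' and ∃ ν : N, a' = a * ν ∧ d = d' * F y ν; an equivalence relation since D is commutative and F y is a homomorphism).
 P acts by p • [y,a,d] = [y, p a, d], D acts by d' • [y,a,d] = [y, a, d' d]; the actions commute, D acts freely: [y,a,d' d] = [y,a,d] gives a = a ν, ν = 1, d' = 1. The D-orbits are indexed by J' × P/N, finite.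
 p • [y,a,d] ∈ D • [y,a,d] iff p a ∈ a N iff p ∈ N (N normal). [y, ν, 1] = [y, 1, F y ν] = F y ν • [y,1,1]; e y := [y,1,1].
 E_Q := the same for Q: quotient of J × Q × D by (x, b * ν, d) ~ (x, b, d * F' x ν), ν : N'.
 Γ := C × D acts on E_P by (c, d) • z = i c • d • z and on E_Q by (c, d) • z = j c • d • z. Points indexed by I := J × J': e₁ (x,y) := [y, r x, 1] ∈ E_P, e₂ (x,y) := [x, r' y, 1] ∈ E_Q.
 Every point of E_P is in the Γ-orbit of exactly one e₁ (x,y), by hr: [y,a,d] with a = i c * r x * ν equals [y, i c * r x, d * F y ν] = (c, d * F y ν) • e₁ (x,y). Similarly for E_Q.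
 Stabilisers: (c,d) • e₁ (x,y) = e₁ (x,y) iff u := (r x)⁻¹ * i c * r x ∈ N (iff i c ∈ N, N normal) and d * F y u = 1; (c,d) • e₂ (x,y) = e₂ (x,y) iff v := (r' y)⁻¹ * j c * r' y ∈ N' (iff j c ∈ N') and d * F' x v = 1;
 these agree by hNN and hF. exists_equivariant_equiv gives θ : E_P ≃ E_Q, equivariant for C and D.
 E := E_P; P acts by MulAction.toPermHom, Q acts by q ↦ θ⁻¹ ∘ q ∘ θ; the two homomorphisms to Equiv.Perm E agree on C, hG.lift gives G →* Equiv.Perm E, hence MulAction G E (MulAction.compHom).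
 All the statements about α p are immediate; those about β q are transported by θ (θ commutes with D); G commutes with D because P and Q do and hG.gen (the set of g commuting with D is a subgroup containing both ranges).
-/

theorem glueE {P Q C G D : Type} [Group P] [Group Q] [Group C] [Group G] [CommGroup D]
    (i : C →* P) (j : C →* Q) (α : P →* G) (β : Q →* G) (hG : IsAmalgam i j α β)
    (N : Subgroup P) (N' : Subgroup Q) (hN : N.Normal) (hN' : N'.Normal) (hf : N.FiniteIndex)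
    (hf' : N'.FiniteIndex) (hNN : N.comap i = N'.comap j) {J J' : Type} [Finite J] [Finite J']
    (r : J → P) (r' : J' → Q)
    (hr : ∀ p : P, ∃! x : J, ∃ c : C, ∃ ν ∈ N, p = i c * r x * ν)
    (hr' : ∀ q : Q, ∃! y : J', ∃ c : C, ∃ ν ∈ N', q = j c * r' y * ν)
    (F : J' → (N →* D)) (F' : J → (N' →* D))
    (hF : ∀ (x : J) (y : J') (c : C) (u : N) (v : N'), (u : P) = (r x)⁻¹ * i c * r x →
      (v : Q) = (r' y)⁻¹ * j c * r' y → F y u = F' x v) :
    ∃ (E : Type) (_ : MulAction G E) (_ : MulAction D E) (e : J' → E),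
      (∀ (g : G) (d : D) (x : E), g • d • x = d • g • x) ∧
      (∀ (d : D) (x : E), d • x = x → d = 1) ∧
      (∃ S : Finset E, ∀ x : E, ∃ s ∈ S, ∃ d : D, x = d • s) ∧
      (∀ (x : E) (p : P), (∃ d : D, α p • x = d • x) ↔ p ∈ N) ∧
      (∀ (x : E) (q : Q), (∃ d : D, β q • x = d • x) ↔ q ∈ N') ∧
      (∀ (y : J') (ν : N), α (ν : P) • e y = F y ν • e y) := by
  obtain ⟨θ, hθ, -⟩ := @exists_equivariant_equiv (C × D) (VR7_E N F) (VR7_E N' F') (J × J') _
    (VR7_actG N F i) (VR7_actG N' F' j) (fun k => VR7_mk N F k.2 (r k.1) 1)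
    (fun k => VR7_mk N' F' k.1 (r' k.2) 1)
    (by
      intro z
      obtain ⟨x, y, c, d, h⟩ := VR7_cover N F i r hr z
      exact ⟨(x, y), (c, d), h⟩)
    (by
      intro z
      obtain ⟨y, x, c, d, h⟩ := VR7_cover N' F' j r' hr' z
      exact ⟨(x, y), (c, d), h⟩)
    (by
      rintro ⟨x, y⟩ ⟨x', y'⟩ ⟨c, d⟩ h
      obtain ⟨h1, h2⟩ := VR7_inj N F i r hr x x' y y' c d h
      rw [h1, h2])
    (by
      rintro ⟨x, y⟩ ⟨x', y'⟩ ⟨c, d⟩ h
      obtain ⟨h1, h2⟩ := VR7_inj N' F' j r' hr' y y' x x' c d h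
      rw [h1, h2])
    (by
      rintro ⟨x, y⟩ ⟨c, d⟩
      have e1 := VR7_stabG N F hN (i c) (r x) y d
      have e2 := VR7_stabG N' F' hN' (j c) (r' y) x d
      refine e1.trans (Iff.trans ?_ e2.symm)
      have e3 : i c ∈ N ↔ j c ∈ N' := by
        have := SetLike.ext_iff.mp hNN c
        simpa [Subgroup.mem_comap] using this
      constructor
      · rintro ⟨h1, u, h2, h3⟩
        have h4 : (r' y)⁻¹ * j c * r' y ∈ N' := by
          have := hN'.conj_mem _ (e3.mp h1) (r' y)⁻¹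
          simpa using this
        refine ⟨e3.mp h1, ⟨_, h4⟩, rfl, ?_⟩
        rw [← hF x y c u ⟨_, h4⟩ h2 rfl]
        exact h3
      · rintro ⟨h1, v, h2, h3⟩
        have h4 : (r x)⁻¹ * i c * r x ∈ N := by
          have := hN.conj_mem _ (e3.mpr h1) (r x)⁻¹
          simpa using this
        refine ⟨e3.mpr h1, ⟨_, h4⟩, rfl, ?_⟩
        rw [hF x y c ⟨_, h4⟩ v rfl h2]
        exact h3)
  have hD : ∀ (d : D) (z : VR7_E N F), θ (d • z) = d • θ z := by
    intro d z
    have h1 := hθ (1, d) z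
    have h2 : θ (i 1 • d • z) = j 1 • d • θ z := h1
    rwa [map_one, map_one, one_smul, one_smul] at h2
  have hC : ∀ (c : C) (z : VR7_E N F), θ (i c • z) = j c • θ z := by
    intro c z
    have h1 := hθ (c, 1) z
    have h2 : θ (i c • (1 : D) • z) = j c • (1 : D) • θ z := h1
    rwa [one_smul, one_smul] at h2
  have hD' : ∀ (d : D) (z : VR7_E N' F'), θ.symm (d • z) = d • θ.symm z := by
    intro d z
    rw [Equiv.symm_apply_eq, hD, Equiv.apply_symm_apply]
  let b : Q →* Equiv.Perm (VR7_E N F) :=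
    { toFun := fun q => (θ.trans (MulAction.toPerm q)).trans θ.symm
      map_one' := by
        ext z
        simp
      map_mul' := by
        intro q q'
        ext z
        simp [mul_smul] }
  have hb : ∀ q z, b q z = θ.symm (q • θ z) := fun q z => rfl
  obtain ⟨f, hf1, hf2⟩ := hG.lift (Equiv.Perm (VR7_E N F))
    (MulAction.toPermHom P (VR7_E N F)) b (by
      intro c
      ext z
      rw [hb, ← hC, Equiv.symm_apply_apply]
      rfl)
  have ha : ∀ p z, f (α p) z = p • z := by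
    intro p z
    rw [hf1]
    rfl
  have hb' : ∀ q z, f (β q) z = θ.symm (q • θ z) := by
    intro q z
    rw [hf2, hb]
  have hcomm : ∀ (g : G) (d : D) (z : VR7_E N F), f g (d • z) = d • f g z := by
    let S : Subgroup G :=
      { carrier := {g | ∀ (d : D) (z : VR7_E N F), f g (d • z) = d • f g z}
        one_mem' := by
          intro d z
          simp
        mul_mem' := by
          intro g g' h h' d z
          rw [map_mul, Equiv.Perm.mul_apply, Equiv.Perm.mul_apply, h', h]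
        inv_mem' := by
          intro g h d z
          rw [map_inv, Equiv.Perm.inv_eq_iff_eq, h]
          show d • z = d • (f g) ((f g).symm z)
          rw [Equiv.apply_symm_apply] }
    have hS : S = ⊤ := by
      rw [eq_top_iff, ← hG.gen, sup_le_iff]
      constructor
      · rintro _ ⟨p, rfl⟩ d z
        rw [ha, ha, VR7_comm]
      · rintro _ ⟨q, rfl⟩ d z
        rw [hb', hb', hD, VR7_comm, hD']
    intro g
    have : g ∈ S := by rw [hS]; trivial
    exact this
  refine ⟨VR7_E N F, MulAction.compHom _ f, VR7_actD N F, fun y => VR7_mk N F y 1 1, ?_, ?_, ?_,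
    ?_, ?_, ?_⟩
  · intro g d z
    exact hcomm g d z
  · exact VR7_free N F
  · exact VR7_fin N F hf
  · intro z p
    have h1 : ∀ d : D, (f (α p) z = d • z) ↔ (p • z = d • z) := by
      intro d; rw [ha]
    exact (exists_congr h1).trans (VR7_stab N F hN p z)
  · intro z q
    have h1 : ∀ d : D, (f (β q) z = d • z) ↔ (q • θ z = d • θ z) := by
      intro d
      rw [hb', Equiv.symm_apply_eq, hD]
    exact (exists_congr h1).trans (VR7_stab N' F' hN' q (θ z))
  · intro y ν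
    show f (α (ν : P)) (VR7_mk N F y 1 1) = F y ν • VR7_mk N F y 1 1
    rw [ha, VR7_base]

end Pool.Agent.Helper485_VRC
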