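import Mathlib
import Pool.Agent.Helper485_VRC.Defs

set_option autoImplicit false

namespace Pool.Agent.Helper485_VRC

/-! TARGET.
char_of_action: K := {g | ∃ d, g • e = d • e}, a subgroup (if g e = d e, g' e = d' e then g g' e = g d' e = d' g e = d' d e). χ k := d⁻¹ where k e = d e (unique by freeness). Finite index: the map G/K → set of D-orbits, g ↦ D (g e), is injective and
 every D-orbit meets the finite set S (or: K is the stabiliser of a point in the action of G on the finite set of D-orbits).
hyp_char: X := the orbit space of C acting on Y by c • y = α (i c) • y (a finite type; e.g. a quotient by the setoid), [y] ∈ X. D := FreeGroup X, E := Y × D, D acts by left multiplication on the second factor.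
 P → Perm E: p (y, w) = (α p • y, w * x_[y] * x_[α p • y]⁻¹) (x_a := FreeGroup.of a) is an action; Q → Perm E: q (y,w) = (β q • y, w). On C both are (y,w) ↦ (c y, w), so hG.lift gives G → Perm E; it commutes with D (hG.gen) and is compatible with
 the action on Y (first coordinate; again hG.gen). char_of_action for e := (y₀, 1) gives K, ψ with k e = (ψ k)⁻¹ • e, i.e. ψ k = w⁻¹ where k (y₀,1) = (y₀, w).
 Claim: for every list l' (entries in l, or any list whose entries satisfy hP, hQ), g' := product of l', and y : Y: g' (y, 1) = (g' y, FreeGroup.mk L) with L reduced of length 2 * l'.length (signs alternate true, false) and, if l' ≠ [], the last letter of L is ([g' y], false).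
 Induct on l' (l' = a :: t acts as: first t, then β a.2, then α a.1): L := L_t ++ [([q z], true), ([p q z], false)] with z = t y; reduced because [z] ≠ [q z] and [q z] ≠ [p q z] by hQ, hP
 ([q z] = [z] means q z = c z for some c, so (c⁻¹ q) z = z; use hG.comm to move c between P and Q).
 g_l ^ n is the product of the list l repeated n times (List.replicate n l).flatten. So ψ(g_l^n) = (mk L)⁻¹ with L reduced and nonempty, hence ≠ 1 (FreeGroup.IsReduced, FreeGroup.toWord_mk / reduce).
 (do not use the word 'infix' in the file: FreeGroup.IsReduced.infix is not available to us; use List.IsChain lemmas instead.)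
-/

theorem char_of_action {G D E : Type} [Group G] [Group D] [MulAction G E] [MulAction D E]
    (hc : ∀ (g : G) (d : D) (x : E), g • d • x = d • g • x)
    (hfree : ∀ (d : D) (x : E), d • x = x → d = 1)
    (hfin : ∃ S : Finset E, ∀ x : E, ∃ s ∈ S, ∃ d : D, x = d • s) (e : E) :
    ∃ (K : Subgroup G) (χ : K →* D), K.FiniteIndex ∧ (∀ g, g ∈ K ↔ ∃ d : D, g • e = d • e) ∧
      ∀ k : K, (k : G) • e = (χ k)⁻¹ • e := by
  classical
  let K : Subgroup G :=
    { carrier := {g | ∃ d : D, g • e = d • e}
      one_mem' := ⟨1, by rw [one_smul, one_smul]⟩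
      mul_mem' := by
        rintro a b ⟨d, hd⟩ ⟨d', hd'⟩
        exact ⟨d' * d, by rw [mul_smul, hd', hc, hd, mul_smul]⟩
      inv_mem' := by
        rintro a ⟨d, hd⟩
        refine ⟨d⁻¹, ?_⟩
        rw [inv_smul_eq_iff, hc, hd, inv_smul_smul] }
  have hmem : ∀ g, g ∈ K ↔ ∃ d : D, g • e = d • e := fun g => Iff.rfl
  have huniq : ∀ d d' : D, d • e = d' • e → d = d' := by
    intro d d' h
    have h1 : (d'⁻¹ * d) • e = e := by rw [mul_smul, h, inv_smul_smul]
    have := hfree _ _ h1
    exact (inv_mul_eq_one.1 this).symm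
  have hK : ∀ k : K, ∃ d : D, (k : G) • e = d • e := fun k => k.2
  choose δ hδ using hK
  let χ : K →* D :=
    { toFun := fun k => (δ k)⁻¹
      map_one' := by
        rw [inv_eq_one]
        apply huniq
        rw [← hδ, one_smul]
        exact one_smul G e
      map_mul' := by
        intro a b
        rw [← mul_inv_rev, inv_inj]
        apply huniq
        rw [← hδ, Subgroup.coe_mul, mul_smul, hδ b, hc, hδ a, mul_smul] }
  refine ⟨K, χ, ?_, hmem, ?_⟩
  · obtain ⟨S, hS⟩ := hfin
    have hfinq : Finite (G ⧸ K) := by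
      choose s hs d hd using fun x : E => hS x
      refine Finite.of_injective (β := S) (fun q => ⟨s (q.out • e), hs _⟩) ?_
      intro q q' h
      have h1 : s (q.out • e) = s (q'.out • e) := congrArg Subtype.val h
      have h2 := hd (q.out • e)
      have h3 := hd (q'.out • e)
      rw [← h1] at h3
      rw [← q.out_eq', ← q'.out_eq', eq_comm]
      apply Quotient.sound'
      rw [QuotientGroup.leftRel_apply, hmem]
      refine ⟨d (q.out • e) * (d (q'.out • e))⁻¹, ?_⟩
      generalize d (q.out • e) = d1 at h2 ⊢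
      generalize d (q'.out • e) = d2 at h3 ⊢
      generalize s (q.out • e) = s0 at h2 h3
      rw [mul_smul, h2, mul_smul, hc, smul_left_cancel_iff, inv_smul_eq_iff, hc,
        h3, inv_smul_smul]
    exact Subgroup.finiteIndex_of_finite_quotient
  · intro k
    change (k : G) • e = ((δ k)⁻¹)⁻¹ • e
    rw [inv_inv]
    exact hδ k

/-- reduced words, appended pair -/
theorem hyp_char_aux_red {X : Type} (L : List (X × Bool)) (a b : X) (hL : FreeGroup.IsReduced L)
    (h : ∀ z ∈ L.getLast?, z.1 = a → z.2 = true) (hab : a ≠ b) :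
    FreeGroup.IsReduced (L ++ [(a, true), (b, false)]) := by
  unfold FreeGroup.IsReduced at *
  refine hL.append ?_ ?_
  · rw [List.isChain_cons_cons]
    refine ⟨fun h => absurd h hab, ?_⟩
    exact List.isChain_singleton _
  · intro x hx y hy
    simp only [List.head?_cons, Option.mem_def, Option.some.injEq] at hy
    subst hy
    intro h1
    exact h x hx h1

/-- the key computation -/
theorem hyp_char_aux_claim {P Q C G Y X : Type} [Group P] [Group Q] [Group C] [Group G]
    (i : C →* P) (j : C →* Q) (α : P →* G) (β : Q →* G) (hcomm : ∀ c, α (i c) = β (j c))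
    [MulAction G Y] (cl : Y → X) (hcl' : ∀ y y', cl y = cl y' → ∃ c : C, α (i c) • y = y')
    (F : G →* Equiv.Perm (Y × FreeGroup X))
    (hα : ∀ (p : P) (y : Y) (w : FreeGroup X), F (α p) (y, w) =
      (α p • y, w * (FreeGroup.of (cl y) * (FreeGroup.of (cl (α p • y)))⁻¹)))
    (hβ : ∀ (q : Q) (y : Y) (w : FreeGroup X), F (β q) (y, w) = (β q • y, w))
    (l : List (P × Q))
    (hP : ∀ a ∈ l, ∀ (c : C) (y : Y), α (i c * a.1) • y ≠ y)
    (hQ : ∀ a ∈ l, ∀ (c : C) (y : Y), β (j c * a.2) • y ≠ y) (y : Y) :
    ∃ L : List (X × Bool), FreeGroup.IsReduced L ∧ L.length = 2 * l.length ∧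
      F ((l.map fun a => α a.1 * β a.2).prod) (y, 1) =
        ((l.map fun a => α a.1 * β a.2).prod • y, FreeGroup.mk L) ∧
      ∀ z ∈ L.getLast?, z = (cl ((l.map fun a => α a.1 * β a.2).prod • y), false) := by
  induction l with
  | nil =>
    refine ⟨[], FreeGroup.IsReduced.nil, by simp, ?_, by simp⟩
    simp only [List.map_nil, List.prod_nil, map_one, one_smul, Equiv.Perm.coe_one, id_eq,
      FreeGroup.one_eq_mk]
  | cons a t ih =>
    obtain ⟨L, h1, h2, h3, h4⟩ := ih (fun b hb => hP b (List.mem_cons_of_mem _ hb))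
      (fun b hb => hQ b (List.mem_cons_of_mem _ hb))
    have hPa := hP a List.mem_cons_self
    have hQa := hQ a List.mem_cons_self
    set z : Y := (t.map fun a => α a.1 * β a.2).prod • y with hz
    have hne1 : cl z ≠ cl (β a.2 • z) := by
      intro h
      obtain ⟨c, hc⟩ := hcl' _ _ h.symm
      apply hQa c z
      rw [map_mul, mul_smul, ← hcomm]
      exact hc
    have hne2 : cl (β a.2 • z) ≠ cl (α a.1 • β a.2 • z) := by
      intro h
      obtain ⟨c, hc⟩ := hcl' _ _ h.symm
      apply hPa c (β a.2 • z)
      rw [map_mul, mul_smul]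
      exact hc
    refine ⟨L ++ [(cl (β a.2 • z), true), (cl (α a.1 • β a.2 • z), false)], ?_, ?_, ?_, ?_⟩
    · refine hyp_char_aux_red _ _ _ h1 ?_ hne2
      intro x hx hx1
      rw [h4 x hx] at hx1
      exact absurd hx1 hne1
    · simp only [List.length_append, List.length_cons, List.length_nil, h2]
      ring
    · rw [List.map_cons, List.prod_cons, map_mul, map_mul, Equiv.Perm.mul_apply,
        Equiv.Perm.mul_apply, h3, hβ, hα, mul_smul, mul_smul, ← FreeGroup.mul_mk]
      rfl
    · intro x hx
      rw [List.map_cons, List.prod_cons, mul_smul, mul_smul]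
      simp only [List.getLast?_append, List.getLast?_cons_cons, List.getLast?_singleton,
        Option.some_or, Option.mem_def, Option.some.injEq] at hx
      exact hx.symm

theorem hyp_char {P Q C G Y : Type} [Group P] [Group Q] [Group C] [Group G]
    (i : C →* P) (j : C →* Q) (α : P →* G) (β : Q →* G) (hG : IsAmalgam i j α β)
    [MulAction G Y] [Finite Y] (y₀ : Y) (l : List (P × Q)) (hl : l ≠ [])
    (hP : ∀ a ∈ l, ∀ (c : C) (y : Y), α (i c * a.1) • y ≠ y)
    (hQ : ∀ a ∈ l, ∀ (c : C) (y : Y), β (j c * a.2) • y ≠ y) :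
    ∃ (X : Type) (_ : Finite X) (K : Subgroup G) (ψ : K →* FreeGroup X), K.FiniteIndex ∧
      ∀ n : ℕ, 0 < n → ∀ h : ((l.map fun a => α a.1 * β a.2).prod) ^ n ∈ K,
        ψ ⟨_, h⟩ ≠ 1 := by
  classical
  let r : Setoid Y :=
    { r := fun y y' => ∃ c : C, α (i c) • y = y'
      iseqv := ⟨fun y => ⟨1, by rw [map_one, map_one, one_smul]⟩,
        fun {y y'} ⟨c, hc⟩ => ⟨c⁻¹, by rw [← hc, map_inv, map_inv, inv_smul_smul]⟩,
        fun {y y' y''} ⟨c, hc⟩ ⟨c', hc'⟩ =>
          ⟨c' * c, by rw [map_mul, map_mul, mul_smul, hc, hc']⟩⟩ }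
  let X := Quotient r
  let cl : Y → X := Quotient.mk r
  have hcl : ∀ (c : C) (y : Y), cl (α (i c) • y) = cl y :=
    fun c y => (Quotient.sound (s := r) ⟨c, rfl⟩).symm
  have hcl' : ∀ y y', cl y = cl y' → ∃ c : C, α (i c) • y = y' :=
    fun y y' h => Quotient.exact (s := r) h
  let aP : P →* Function.End (Y × FreeGroup X) :=
    { toFun := fun p z => (α p • z.1, z.2 * (FreeGroup.of (cl z.1) *
        (FreeGroup.of (cl (α p • z.1)))⁻¹))
      map_one' := by
        funext z
        change (α 1 • z.1, z.2 * (FreeGroup.of (cl z.1) * (FreeGroup.of (cl (α 1 • z.1)))⁻¹)) = z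
        rw [map_one, one_smul, mul_inv_cancel, mul_one]
      map_mul' := by
        intro p p'
        funext z
        change (α (p * p') • z.1, z.2 * (FreeGroup.of (cl z.1) *
            (FreeGroup.of (cl (α (p * p') • z.1)))⁻¹)) =
          (α p • (α p' • z.1), (z.2 * (FreeGroup.of (cl z.1) *
            (FreeGroup.of (cl (α p' • z.1)))⁻¹)) * (FreeGroup.of (cl (α p' • z.1)) *
            (FreeGroup.of (cl (α p • (α p' • z.1))))⁻¹))
        rw [map_mul, mul_smul]
        congr 1
        group }
  let aQ : Q →* Function.End (Y × FreeGroup X) :=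
    { toFun := fun q z => (β q • z.1, z.2)
      map_one' := by
        funext z
        change (β 1 • z.1, z.2) = z
        rw [map_one, one_smul]
      map_mul' := by
        intro p p'
        funext z
        change (β (p * p') • z.1, z.2) = (β p • (β p' • z.1), z.2)
        rw [map_mul, mul_smul] }
  obtain ⟨F, hF1, hF2⟩ := hG.lift (Equiv.Perm (Y × FreeGroup X)) aP.toHomPerm aQ.toHomPerm (by
    intro c
    ext1 z
    change (α (i c) • z.1, z.2 * (FreeGroup.of (cl z.1) *
        (FreeGroup.of (cl (α (i c) • z.1)))⁻¹)) = (β (j c) • z.1, z.2)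
    rw [hcl, mul_inv_cancel, mul_one, hG.comm])
  have hα : ∀ (p : P) (y : Y) (w : FreeGroup X), F (α p) (y, w) =
      (α p • y, w * (FreeGroup.of (cl y) * (FreeGroup.of (cl (α p • y)))⁻¹)) := by
    intro p y w
    rw [hF1]; rfl
  have hβ : ∀ (q : Q) (y : Y) (w : FreeGroup X), F (β q) (y, w) = (β q • y, w) := by
    intro q y w
    rw [hF2]; rfl
  -- the action commutes with left multiplication
  let H0 : Subgroup G :=
    { carrier := {g | ∃ u : Y → FreeGroup X, ∀ y w, F g (y, w) = (g • y, w * u y)}
      one_mem' := ⟨fun _ => 1, fun y w => by simp⟩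
      mul_mem' := by
        rintro a b ⟨u, hu⟩ ⟨v, hv⟩
        refine ⟨fun y => v y * u (b • y), fun y w => ?_⟩
        rw [map_mul, Equiv.Perm.mul_apply, hv, hu, mul_smul, mul_assoc]
      inv_mem' := by
        rintro a ⟨u, hu⟩
        refine ⟨fun y => (u (a⁻¹ • y))⁻¹, fun y w => ?_⟩
        rw [map_inv, Equiv.Perm.inv_eq_iff_eq, hu, smul_inv_smul, inv_mul_cancel_right] }
  have hH0 : H0 = ⊤ := by
    rw [eq_top_iff, ← hG.gen, sup_le_iff]
    constructor
    · rintro _ ⟨p, rfl⟩
      exact ⟨_, fun y w => hα p y w⟩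
    · rintro _ ⟨q, rfl⟩
      exact ⟨fun _ => 1, fun y w => by rw [hβ, mul_one]⟩
  have hu : ∀ g : G, ∃ u : Y → FreeGroup X, ∀ y w, F g (y, w) = (g • y, w * u y) := by
    intro g
    have : g ∈ H0 := by rw [hH0]; exact Subgroup.mem_top g
    exact this
  let _ : MulAction G (Y × FreeGroup X) :=
    { smul := fun g z => F g z
      one_smul := fun z => by
        change F 1 z = z
        rw [map_one]; rfl
      mul_smul := fun g h z => by
        change F (g * h) z = F g (F h z)
        rw [map_mul]; rfl }
  let _ : MulAction (FreeGroup X) (Y × FreeGroup X) :=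
    { smul := fun d z => (z.1, d * z.2)
      one_smul := fun z => by
        change (z.1, 1 * z.2) = z
        rw [one_mul]
      mul_smul := fun g h z => by
        change (z.1, g * h * z.2) = (z.1, g * (h * z.2))
        rw [mul_assoc] }
  have hact1 : ∀ (g : G) (z : Y × FreeGroup X), g • z = F g z := fun _ _ => rfl
  have hact2 : ∀ (d : FreeGroup X) (z : Y × FreeGroup X), d • z = (z.1, d * z.2) := fun _ _ => rfl
  have hfinY : Finite Y := inferInstance
  obtain ⟨K, ψ, hK1, hK2, hK3⟩ := char_of_action (G := G) (D := FreeGroup X)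
    (E := Y × FreeGroup X)
    (by
      rintro g d ⟨y, w⟩
      obtain ⟨u, hu⟩ := hu g
      rw [hact1, hact1, hact2, hact2, hu, hu]
      simp only [mul_assoc])
    (by
      rintro d ⟨y, w⟩ h
      rw [hact2] at h
      have h1 := congrArg Prod.snd h
      simpa using h1)
    (by
      have := Fintype.ofFinite Y
      refine ⟨Finset.univ.image fun y : Y => (y, (1 : FreeGroup X)), ?_⟩
      rintro ⟨y, w⟩
      refine ⟨(y, 1), Finset.mem_image_of_mem _ (Finset.mem_univ y), w, ?_⟩
      rw [hact2]
      simp) (y₀, 1)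
  refine ⟨X, inferInstance, K, ψ, hK1, ?_⟩
  intro n hn h hψ
  have h1 := hK3 ⟨_, h⟩
  rw [hψ, inv_one, one_smul, hact1] at h1
  have hpow : ((l.map fun a => α a.1 * β a.2).prod) ^ n =
      (((List.replicate n l).flatten).map fun a => α a.1 * β a.2).prod := by
    clear h hψ h1 hn
    induction n with
    | zero => simp
    | succ n ih =>
      rw [pow_succ', ih, List.replicate_succ, List.flatten_cons, List.map_append, List.prod_append]
  have hsub : ∀ a ∈ (List.replicate n l).flatten, a ∈ l := by
    intro a ha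
    rw [List.mem_flatten] at ha
    obtain ⟨l', hl', ha⟩ := ha
    rw [List.eq_of_mem_replicate hl'] at ha
    exact ha
  obtain ⟨L, hL1, hL2, hL3, -⟩ := hyp_char_aux_claim i j α β hG.comm cl hcl' F hα hβ
    (List.replicate n l).flatten (fun a ha => hP a (hsub a ha)) (fun a ha => hQ a (hsub a ha)) y₀
  have h2 : FreeGroup.mk L = 1 := by
    have h1' : F (((l.map fun a => α a.1 * β a.2).prod) ^ n) (y₀, 1) = (y₀, 1) := h1
    rw [hpow, hL3] at h1'
    exact congrArg Prod.snd h1'
  have h3 : L = [] := by
    have h4 := congrArg FreeGroup.toWord h2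
    rw [FreeGroup.toWord_mk, hL1.reduce_eq, FreeGroup.toWord_one] at h4
    exact h4
  rw [h3] at hL2
  have h5 : (List.replicate n l).flatten.length = n * l.length := by simp
  rw [h5] at hL2
  have h6 : 0 < l.length := List.length_pos_iff.2 hl
  have h7 : 0 < n * l.length := Nat.mul_pos hn h6
  simp only [List.length_nil] at hL2
  omega

end Pool.Agent.Helper485_VRC
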