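import Mathlib
import Pool.Agent.Helper485_VRC.Defs
import Pool.Agent.Helper485_VRC.Chars
import Pool.Agent.Helper485_VRC.Sep
import Pool.Agent.Helper485_VRC.Choice
import Pool.Agent.Helper485_VRC.Match
import Pool.Agent.Helper485_VRC.Glue
import Pool.Agent.Helper485_VRC.Hyp
import Pool.Agent.Helper485_VRC.CycRed
import Pool.Agent.Helper485_VF.Final

set_option autoImplicit false

/-!
# Property (VRC) for amalgams over virtually cyclic subgroups
-/

namespace Pool.Agent.Helper485_VRC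

section det

/-- `g` is detected by a character of a subgroup of finite index -/
def Det2 {G : Type} [Group G] (g : G) : Prop :=
  ∃ (K : Subgroup G) (χ : K →* Multiplicative ℤ) (n : ℕ) (hn : g ^ n ∈ K),
    K.FiniteIndex ∧ χ ⟨g ^ n, hn⟩ ≠ 1

/-- the cyclic subgroup generated by `g` meets a subgroup of finite index trivially -/
def Det1 {G : Type} [Group G] (g : G) : Prop :=
  ∃ N : Subgroup G, N.FiniteIndex ∧ ∀ n : ℤ, g ^ n ∈ N → g ^ n = 1

variable {G H : Type} [Group G] [Group H]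

theorem finiteIndex_comap (f : G →* H) (K : Subgroup H) (hK : K.FiniteIndex) :
    (K.comap f).FiniteIndex := by
  constructor
  rw [Subgroup.index_comap]
  have := hK
  exact (inferInstance : (K.subgroupOf f.range).FiniteIndex).index_ne_zero

theorem vr_of_det {g : G} (h : Det1 g ∨ Det2 g) : IsVirtualRetract (Subgroup.zpowers g) := by
  rcases h with ⟨N, hN, h⟩ | ⟨K, χ, n, hn, hK, h⟩
  · exact vr_of_disjoint g N hN h
  · exact vr_of_char g K hK χ n hn h

theorem Det2.comap (f : G →* H) {g : G} (h : Det2 (f g)) : Det2 g := by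
  obtain ⟨K, χ, n, hn, hK, h⟩ := h
  have hn' : g ^ n ∈ K.comap f := by
    rw [Subgroup.mem_comap, map_pow]; exact hn
  refine ⟨K.comap f, χ.comp (f.subgroupComap K), n, hn', finiteIndex_comap f K hK, ?_⟩
  have h1 : (f.subgroupComap K) ⟨g ^ n, hn'⟩ = ⟨(f g) ^ n, hn⟩ :=
    Subtype.ext (map_pow f g n)
  rw [MonoidHom.comp_apply, h1]
  exact h

theorem Det1.conj {x g : G} (h : Det1 (x * g * x⁻¹)) : Det1 g := by
  obtain ⟨N, hN, h⟩ := h
  refine ⟨N.comap (MulAut.conj x).toMonoidHom, finiteIndex_comap _ N hN, ?_⟩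
  intro n hn
  have h1 : x * g ^ n * x⁻¹ ∈ N := hn
  rw [← conj_zpow] at h1
  have h2 := h n h1
  rw [conj_zpow] at h2
  have h3 : g ^ n = x⁻¹ * (x * g ^ n * x⁻¹) * x := by group
  rw [h3, h2]; group

theorem Det2.conj {x g : G} (h : Det2 (x * g * x⁻¹)) : Det2 g :=
  Det2.comap (MulAut.conj x).toMonoidHom h

theorem Det2.of_sub {g : G} (K : Subgroup G) (hK : K.FiniteIndex) (n : ℕ) (hn : g ^ n ∈ K)
    (h : Det2 (⟨g ^ n, hn⟩ : K)) : Det2 g := by
  obtain ⟨L, χ, m, hm, hL, h⟩ := h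
  let e : L ≃* L.map K.subtype := L.equivMapOfInjective K.subtype K.subtype_injective
  have h1 : g ^ (n * m) ∈ L.map K.subtype := ⟨_, hm, by simp [pow_mul]⟩
  refine ⟨L.map K.subtype, χ.comp e.symm.toMonoidHom, n * m, h1, ?_, ?_⟩
  · constructor
    rw [Subgroup.index_map_subtype]
    exact mul_ne_zero hL.index_ne_zero hK.index_ne_zero
  · have h2 : e ⟨(⟨g ^ n, hn⟩ : K) ^ m, hm⟩ = ⟨g ^ (n * m), h1⟩ := Subtype.ext (by
      show ((⟨g ^ n, hn⟩ : K) ^ m : K).1 = _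
      simp [pow_mul])
    show χ (e.symm ⟨g ^ (n * m), h1⟩) ≠ 1
    rw [← h2, MulEquiv.symm_apply_apply]
    exact h

/-- homomorphisms to an infinite cyclic group as characters -/
theorem exists_char {w : G} (hw : ∀ n : ℤ, w ^ n = 1 → n = 0) (ρ : H →* G)
    (hρ : ∀ k, ρ k ∈ Subgroup.zpowers w) :
    ∃ χ : H →* Multiplicative ℤ, ∀ k, ρ k = w ^ (Multiplicative.toAdd (χ k)) := by
  have hinj : ∀ m n : ℤ, w ^ m = w ^ n → m = n := by
    intro m n h
    have : w ^ (m - n) = 1 := by rw [zpow_sub, h, mul_inv_cancel]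
    exact sub_eq_zero.1 (hw _ this)
  choose f hf using hρ
  refine ⟨MonoidHom.mk' (fun k => Multiplicative.ofAdd (f k)) ?_, fun k => (hf k).symm⟩
  intro a b
  have h1 : f (a * b) = f a + f b := by
    apply hinj
    rw [zpow_add]
    have h2 : w ^ f (a * b) = ρ (a * b) := hf (a * b)
    have h3 : w ^ f a = ρ a := hf a
    have h4 : w ^ f b = ρ b := hf b
    rw [h2, h3, h4, map_mul]
  show Multiplicative.ofAdd (f (a * b)) = _
  rw [h1]
  rfl

/-- the character given by a virtual retraction onto an infinite cyclic subgroup -/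
theorem exists_char_of_vrc (hG : VRC G) {g : G} (hg : ∀ n : ℤ, g ^ n = 1 → n = 0) :
    ∃ (K : Subgroup G) (_ : K.FiniteIndex) (hgK : g ∈ K) (χ : K →* Multiplicative ℤ),
      χ ⟨g, hgK⟩ = Multiplicative.ofAdd 1 := by
  obtain ⟨K, hK, hgK, ρ, hρ⟩ := hG g
  have hgK' : g ∈ K := hgK (Subgroup.mem_zpowers g)
  obtain ⟨χ, hχ⟩ := exists_char (H := K) hg ((Subgroup.zpowers g).subtype.comp ρ)
    (fun k => (ρ k).2)
  refine ⟨K, hK, hgK', χ, ?_⟩
  have h1 := hχ ⟨g, hgK'⟩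
  have h2 : ((Subgroup.zpowers g).subtype.comp ρ) ⟨g, hgK'⟩ = g := by
    have := hρ ⟨g, Subgroup.mem_zpowers g⟩
    exact congrArg Subtype.val this
  rw [h2] at h1
  have h3 : g ^ (Multiplicative.toAdd (χ ⟨g, hgK'⟩) - 1) = 1 := by
    rw [zpow_sub, ← h1, zpow_one, mul_inv_cancel]
  have h4 := sub_eq_zero.1 (hg _ h3)
  rw [← h4]
  rfl

theorem free_det {X : Type} (w : FreeGroup X) (hw : w ≠ 1) : Det2 w := by
  have h0 : IsFreeGroup (⊤ : Subgroup (FreeGroup X)) := by infer_instance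
  have h1 := Pool.Agent.Helper485_VF.main (FreeGroup X)
    ⟨⊤, inferInstance, h0⟩ (Subgroup.zpowers w) (Subgroup.fg_iff _ |>.2
      ⟨{w}, by rw [Subgroup.zpowers_eq_closure], Set.finite_singleton w⟩)
  obtain ⟨K, hK, hwK, ρ, hρ, hρ'⟩ := h1
  have hwK' : w ∈ K := hwK (Subgroup.mem_zpowers w)
  have hw' : ∀ n : ℤ, w ^ n = 1 → n = 0 := by
    intro n hn
    by_contra h
    exact hw ((IsMulTorsionFree.zpow_eq_one_iff_left h).1 hn)
  obtain ⟨χ, hχ⟩ := exists_char (H := K) hw' ρ hρ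
  refine ⟨K, χ, 1, by rw [pow_one]; exact hwK', hK, ?_⟩
  intro h
  have h2 := hχ ⟨w ^ 1, by rw [pow_one]; exact hwK'⟩
  rw [h] at h2
  have h3 := hρ' (w ^ 1) (by rw [pow_one]; exact hwK') (by rw [pow_one]; exact Subgroup.mem_zpowers w)
  rw [h3, pow_one] at h2
  exact hw (by rw [h2]; rfl)

end det

section amalgam

variable {P Q C G : Type} [Group P] [Group Q] [Group C] [Group G] {i : C →* P}
  {j : C →* Q} {α : P →* G} {β : Q →* G}

theorem IsAmalgam.symm (hG : IsAmalgam i j α β) : IsAmalgam j i β α where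
  comm c := (hG.comm c).symm
  gen := by rw [sup_comm]; exact hG.gen
  lift M _ a b h := by
    obtain ⟨f, h1, h2⟩ := hG.lift M b a fun c => (h c).symm
    exact ⟨f, h2, h1⟩

/-- common intersections -/
theorem choice (hP : VRC P) (hQ : VRC Q) (hi : Function.Injective i) (hj : Function.Injective j)
    (hC : VirtuallyCyclic C) (M : Subgroup P) (hM : M.Normal) (hM' : M.FiniteIndex)
    (L : Subgroup Q) (hL : L.Normal) (hL' : L.FiniteIndex) :
    ∃ (N : Subgroup P) (N' : Subgroup Q), N.Normal ∧ N.FiniteIndex ∧ N ≤ M ∧ N'.Normal ∧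
      N'.FiniteIndex ∧ N' ≤ L ∧ N.comap i = N'.comap j ∧
      ((N.comap i = ⊥) ∨ ∃ (z : C) (n : ℕ), 0 < n ∧ (∀ m : ℤ, z ^ m = 1 → m = 0) ∧
        (Subgroup.zpowers z).FiniteIndex ∧ N.comap i = Subgroup.zpowers (z ^ n)) := by
  obtain ⟨Z, hZ, hZc⟩ := hC
  obtain ⟨⟨z, hz⟩, hz'⟩ := hZc.exists_generator
  have hZz : Z = Subgroup.zpowers z := by
    apply le_antisymm
    · intro x hx
      obtain ⟨n, hn⟩ := hz' ⟨x, hx⟩
      exact ⟨n, congrArg Subtype.val hn⟩
    · rw [Subgroup.zpowers_le]; exact hz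
  rw [hZz] at hZ
  by_cases hinf : ∀ n : ℤ, z ^ n = 1 → n = 0
  · obtain ⟨n, hn, h1⟩ := choice_inf hP i hi z hinf hZ M hM hM'
    obtain ⟨n', hn', h2⟩ := choice_inf hQ j hj z hinf hZ L hL hL'
    obtain ⟨N, a1, a2, a3, a4⟩ := h1 n' hn'
    obtain ⟨N', b1, b2, b3, b4⟩ := h2 n hn
    refine ⟨N, N', a1, a2, a3, b1, b2, b3, ?_, Or.inr ⟨z, n * n', Nat.mul_pos hn hn', hinf, hZ, a4⟩⟩
    rw [a4, b4, mul_comm]
  · push Not at hinf
    obtain ⟨n, hn, hn0⟩ := hinf
    have hfo : IsOfFinOrder z := isOfFinOrder_iff_zpow_eq_one.2 ⟨n, hn0, hn⟩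
    have : Finite (Subgroup.zpowers z) := hfo.finite_zpowers
    have hfinC : Finite C := by
      have : Finite (C ⧸ Subgroup.zpowers z) := Subgroup.finite_quotient_of_finiteIndex
      exact Finite.of_subgroup_quotient (Subgroup.zpowers z)
    obtain ⟨N, a1, a2, a3, a4⟩ := choice_fin hP i hi M hM hM'
    obtain ⟨N', b1, b2, b3, b4⟩ := choice_fin hQ j hj L hL hL'
    exact ⟨N, N', a1, a2, a3, b1, b2, b3, by rw [a4, b4], Or.inl a4⟩

/-- a finite set with an action of the amalgam -/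
theorem exists_finite_action (hG : IsAmalgam i j α β) (N : Subgroup P) (N' : Subgroup Q)
    (hN : N.Normal) (hN' : N'.Normal) (hf : N.FiniteIndex) (hf' : N'.FiniteIndex)
    (hNN : N.comap i = N'.comap j) :
    ∃ (Y : Type) (_ : MulAction G Y) (_ : Finite Y) (_ : Nonempty Y),
      (∀ (x : Y) (p : P), α p • x = x ↔ p ∈ N) ∧ ∀ (x : Y) (q : Q), β q • x = x ↔ q ∈ N' := by
  obtain ⟨J, fJ, r, hr⟩ := exists_reps i N hN hf
  obtain ⟨J', fJ', r', hr'⟩ := exists_reps j N' hN' hf'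
  obtain ⟨E, aE, dE, e, h1, h2, ⟨S, hS⟩, h4, h5, -⟩ :=
    glueE (D := (⊥ : Subgroup (Multiplicative ℤ))) i j α β hG N N' hN hN'
    hf hf' hNN r r' hr hr' (fun _ => 1) (fun _ => 1) (fun _ _ _ _ _ _ _ => rfl)
  have hd : ∀ (d : (⊥ : Subgroup (Multiplicative ℤ))) (x : E), d • x = x := fun d x => by
    rw [Subsingleton.elim d 1, one_smul]
  refine ⟨E, aE, ?_, ?_, ?_, ?_⟩
  · apply Set.finite_univ_iff.1
    refine S.finite_toSet.subset ?_
    intro x _
    obtain ⟨s, hs, d, hx⟩ := hS x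
    rw [hx, hd]
    exact hs
  · obtain ⟨y, -, -⟩ := hr' 1
    exact ⟨e y⟩
  · intro x p
    rw [← h4 x p]
    exact ⟨fun h => ⟨1, by rw [one_smul]; exact h⟩, fun ⟨d, h⟩ => by rw [h, hd]⟩
  · intro x q
    rw [← h5 x q]
    exact ⟨fun h => ⟨1, by rw [one_smul]; exact h⟩, fun ⟨d, h⟩ => by rw [h, hd]⟩

theorem det_fin (hG : IsAmalgam i j α β) (hP : VRC P) (hQ : VRC Q)
    (hi : Function.Injective i) (hj : Function.Injective j) (hC : VirtuallyCyclic C) (p : P)
    (hp : IsOfFinOrder p) : Det1 (α p) := by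
  -- a normal subgroup of finite index of `P` missing the nontrivial powers of `p`
  obtain ⟨M, hM, hM', hMp⟩ : ∃ M : Subgroup P, M.Normal ∧ M.FiniteIndex ∧
      ∀ n : ℤ, p ^ n ∈ M → p ^ n = 1 := by
    obtain ⟨K, hK, hpK, ρ, hρ⟩ := hP p
    have hfin : Finite (Subgroup.zpowers p) := hp.finite_zpowers
    have hker : ρ.ker.FiniteIndex := inferInstance
    have hL : (ρ.ker.map K.subtype).FiniteIndex := by
      constructor
      rw [Subgroup.index_map_subtype]
      exact mul_ne_zero hker.index_ne_zero hK.index_ne_zero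
    refine ⟨(ρ.ker.map K.subtype).normalCore, inferInstance,
      Subgroup.finiteIndex_normalCore _, ?_⟩
    intro n hn
    obtain ⟨k, hk, hkn⟩ := (Subgroup.normalCore_le _) hn
    have h1 : k = ⟨p ^ n, hpK ⟨n, rfl⟩⟩ := Subtype.ext hkn
    have h2 := hρ ⟨p ^ n, n, rfl⟩
    rw [← h1] at h2
    have h3 : ρ k = 1 := hk
    rw [h3] at h2
    exact (congrArg Subtype.val h2).symm
  obtain ⟨N, N', a1, a2, a3, b1, b2, -, hNN, -⟩ := choice hP hQ hi hj hC M hM hM' ⊤
    inferInstance inferInstance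
  obtain ⟨Y, aY, fY, ⟨y⟩, h1, -⟩ := exists_finite_action hG N N' a1 b1 a2 b2 hNN
  refine ⟨(MulAction.toPermHom G Y).ker, inferInstance, ?_⟩
  intro n hn
  have h2 : α (p ^ n) • y = y := by
    rw [map_zpow]
    exact congrArg (fun σ : Equiv.Perm Y => σ y) hn
  have h3 := hMp n (a3 ((h1 y (p ^ n)).1 h2))
  rw [← map_zpow, h3, map_one]

/-- a character of a subgroup of finite index of the amalgam, from compatible labels -/
theorem exists_labelled (hG : IsAmalgam i j α β) (N : Subgroup P) (N' : Subgroup Q)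
    (hN : N.Normal) (hN' : N'.Normal) (hf : N.FiniteIndex) (hf' : N'.FiniteIndex)
    (hNN : N.comap i = N'.comap j) {J J' : Type} [Finite J] [Finite J']
    (r : J → P) (r' : J' → Q)
    (hr : ∀ p : P, ∃! x : J, ∃ c : C, ∃ ν ∈ N, p = i c * r x * ν)
    (hr' : ∀ q : Q, ∃! y : J', ∃ c : C, ∃ ν ∈ N', q = j c * r' y * ν)
    (F : J' → (N →* Multiplicative ℤ)) (F' : J → (N' →* Multiplicative ℤ))
    (hF : ∀ (x : J) (y : J') (c : C) (u : N) (v : N'), (u : P) = (r x)⁻¹ * i c * r x →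
      (v : Q) = (r' y)⁻¹ * j c * r' y → F y u = F' x v) (y : J') (p : P) (n : ℕ)
    (hn : p ^ n ∈ N) (hne : F y ⟨p ^ n, hn⟩ ≠ 1) : Det2 (α p) := by
  obtain ⟨E, aE, dE, e, h1, h2, h3, h4, h5, h6⟩ := glueE i j α β hG N N' hN hN'
    hf hf' hNN r r' hr hr' F F' hF
  obtain ⟨K, χ, hK, hKe, hχ⟩ := char_of_action h1 h2 h3 (e y)
  have h7 := h6 y ⟨p ^ n, hn⟩
  have h8 : α p ^ n ∈ K := (hKe _).2 ⟨F y ⟨p ^ n, hn⟩, by rw [← map_pow]; exact h7⟩
  refine ⟨K, χ, n, h8, hK, ?_⟩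
  intro h9
  have h10 := hχ ⟨α p ^ n, h8⟩
  rw [h9, inv_one, one_smul] at h10
  have h11 : α (p ^ n) • e y = e y := by rw [map_pow]; exact h10
  rw [h11] at h7
  exact hne (h2 _ _ h7.symm)

theorem det_inf (hG : IsAmalgam i j α β) (hP : VRC P) (hQ : VRC Q)
    (hi : Function.Injective i) (hj : Function.Injective j) (hC : VirtuallyCyclic C) (p : P)
    (hp : ∀ n : ℤ, p ^ n = 1 → n = 0) : Det2 (α p) := by
  obtain ⟨K₁, hK₁, hpK, χ₁, hχ₁⟩ := exists_char_of_vrc hP hp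
  -- a character on the other side
  obtain ⟨K₂, hK₂, χ₂, hχ₂⟩ : ∃ (K₂ : Subgroup Q) (_ : K₂.FiniteIndex)
      (χ₂ : K₂ →* Multiplicative ℤ), ∀ z : C, (∀ m : ℤ, z ^ m = 1 → m = 0) →
        (Subgroup.zpowers z).FiniteIndex → ∀ (n : ℕ) (_ : 0 < n) (h : j (z ^ n) ∈ K₂),
          χ₂ ⟨j (z ^ n), h⟩ ≠ 1 := by
    by_cases hex : ∃ z : C, (∀ m : ℤ, z ^ m = 1 → m = 0) ∧ (Subgroup.zpowers z).FiniteIndex
    · obtain ⟨z₀, hz₀, hz₀'⟩ := hex
      have hjz : ∀ m : ℤ, (j z₀) ^ m = 1 → m = 0 := fun m hm => hz₀ m (hj (by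
        rw [map_zpow, map_one]; exact hm))
      obtain ⟨K₂, hK₂, hzK, χ₂, hχ₂⟩ := exists_char_of_vrc hQ hjz
      refine ⟨K₂, hK₂, χ₂, ?_⟩
      intro z hz hz' n hn h h1
      -- a power of `z ^ n` is a nontrivial power of `z₀`
      obtain ⟨m, hm0, -, hm⟩ := Subgroup.exists_pow_mem_of_index_ne_zero
        hz₀'.index_ne_zero (z ^ n)
      obtain ⟨k, hk⟩ := hm
      have hk0 : k ≠ 0 := by
        rintro rfl
        have h2 : z ^ ((n * m : ℕ) : ℤ) = 1 := by
          rw [zpow_natCast, pow_mul, ← hk]; exact zpow_zero z₀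
        have h3 := hz _ h2
        have h4 : n * m ≠ 0 := Nat.mul_ne_zero hn.ne' hm0.ne'
        exact h4 (by exact_mod_cast h3)
      have h5 : (⟨j (z ^ n), h⟩ : K₂) ^ m = (⟨j z₀, hzK⟩ : K₂) ^ k := by
        apply Subtype.ext
        show (j (z ^ n)) ^ m = (j z₀) ^ k
        rw [← map_pow, ← map_zpow, ← hk]
      have h6 : (χ₂ ⟨j z₀, hzK⟩) ^ k = 1 := by
        rw [← map_zpow, ← h5, map_pow, h1, one_pow]
      rw [hχ₂, ← ofAdd_zsmul, smul_eq_mul, mul_one] at h6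
      exact hk0 (ofAdd_eq_one.1 h6)
    · exact ⟨⊤, inferInstance, 1, fun z hz hz' => absurd ⟨z, hz, hz'⟩ hex⟩
  obtain ⟨N, N', a1, a2, a3, b1, b2, b3, hNN, hcase⟩ := choice hP hQ hi hj hC K₁.normalCore
    inferInstance (Subgroup.finiteIndex_normalCore K₁) K₂.normalCore inferInstance
    (Subgroup.finiteIndex_normalCore K₂)
  have hNK : N ≤ K₁ := a3.trans K₁.normalCore_le
  have hNK' : N' ≤ K₂ := b3.trans K₂.normalCore_le
  let f : N →* Multiplicative ℤ := χ₁.comp (Subgroup.inclusion hNK)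
  let f' : N' →* Multiplicative ℤ := χ₂.comp (Subgroup.inclusion hNK')
  obtain ⟨J, fJ, r, hr⟩ := exists_reps i N a1 a2
  obtain ⟨J', fJ', r', hr'⟩ := exists_reps j N' b1 b2
  have hpn : p ^ N.index ∈ N := Subgroup.pow_index_mem N p
  have hfp : f ⟨p ^ N.index, hpn⟩ = Multiplicative.ofAdd (N.index : ℤ) := by
    have h1 : Subgroup.inclusion hNK ⟨p ^ N.index, hpn⟩ = (⟨p, hpK⟩ : K₁) ^ N.index := rfl
    show χ₁ (Subgroup.inclusion hNK ⟨p ^ N.index, hpn⟩) = _
    rw [h1, map_pow, hχ₁, ← ofAdd_nsmul, nsmul_eq_mul, mul_one]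
  have hidx : (N.index : ℤ) ≠ 0 := by exact_mod_cast a2.index_ne_zero
  rcases hcase with hbot | ⟨z, n, hn, hz, hz', hzn⟩
  · -- the edge group is finite
    obtain ⟨y, -, -⟩ := hr' 1
    refine exists_labelled hG N N' a1 b1 a2 b2 hNN r r' hr hr' (fun _ => f) (fun _ => 1) ?_ y p
      N.index hpn ?_
    · intro x y c u v hu hv
      have h1 : i c ∈ N := by
        have h2 : r x * (u : P) * (r x)⁻¹ ∈ N := a1.conj_mem _ u.2 _
        have h3 : r x * (u : P) * (r x)⁻¹ = i c := by rw [hu]; group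
        rwa [h3] at h2
      have h2 : c ∈ N.comap i := h1
      rw [hbot, Subgroup.mem_bot] at h2
      have h3 : u = 1 := Subtype.ext (by rw [hu, h2, map_one]; simp)
      rw [h3, map_one]
      rfl
    · rw [hfp]
      exact fun h => hidx (ofAdd_eq_one.1 h)
  · -- the edge group is infinite
    have hzN : i (z ^ n) ∈ N := by
      have : z ^ n ∈ N.comap i := by rw [hzn]; exact Subgroup.mem_zpowers _
      exact this
    have hzN' : j (z ^ n) ∈ N' := by
      have : z ^ n ∈ N'.comap j := by rw [← hNN, hzn]; exact Subgroup.mem_zpowers _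
      exact this
    have hu0 : ∀ x : J, (r x)⁻¹ * i (z ^ n) * r x ∈ N := fun x => by
      have := a1.conj_mem _ hzN (r x)⁻¹
      rwa [inv_inv] at this
    have hv0 : ∀ y : J', (r' y)⁻¹ * j (z ^ n) * r' y ∈ N' := fun y => by
      have := b1.conj_mem _ hzN' (r' y)⁻¹
      rwa [inv_inv] at this
    let a : J → ℤ := fun x => Multiplicative.toAdd (f ⟨_, hu0 x⟩)
    let b : J' → ℤ := fun y => Multiplicative.toAdd (f' ⟨_, hv0 y⟩)
    -- a nonzero label
    obtain ⟨y, ⟨c, ν, hν, h1⟩, -⟩ := hr' 1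
    have hby : b y ≠ 0 := by
      intro hb
      have hb' : f' ⟨_, hv0 y⟩ = 1 := by
        show f' ⟨_, hv0 y⟩ = Multiplicative.ofAdd 0
        rw [← hb]; rfl
      -- `c * z ^ n * c⁻¹` is a nontrivial power of `z ^ n`
      have h2 : c * z ^ n * c⁻¹ ∈ N.comap i := by
        have h3 : i c * i (z ^ n) * (i c)⁻¹ ∈ N := a1.conj_mem _ hzN _
        show i (c * z ^ n * c⁻¹) ∈ N
        rwa [map_mul, map_mul, map_inv]
      have h3 : j (c * z ^ n * c⁻¹) ∈ N' := by rw [hNN] at h2; exact h2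
      have h4 : (⟨j (c * z ^ n * c⁻¹), h3⟩ : N') = ⟨ν, hν⟩⁻¹ * ⟨_, hv0 y⟩ * ⟨ν, hν⟩ := by
        apply Subtype.ext
        show j (c * z ^ n * c⁻¹) = ν⁻¹ * ((r' y)⁻¹ * j (z ^ n) * r' y) * ν
        have h5 : r' y = (j c)⁻¹ * ν⁻¹ := by
          have : j c * r' y * ν = 1 := h1.symm
          rw [mul_assoc, ← eq_inv_mul_iff_mul_eq, mul_one] at this
          rw [← this, mul_assoc, mul_inv_cancel, mul_one]
        rw [h5, map_mul, map_mul, map_inv]
        group
      have h5 : f' ⟨j (c * z ^ n * c⁻¹), h3⟩ = 1 := by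
        rw [h4, map_mul, map_mul, hb', mul_one, ← map_mul, inv_mul_cancel, map_one]
      rw [hzn] at h2
      obtain ⟨k, hk⟩ := h2
      have hk0 : k ≠ 0 := by
        rintro rfl
        have h6 : c * z ^ n * c⁻¹ = 1 := by rw [← hk]; exact zpow_zero _
        have h7 : z ^ n = 1 := by
          have : z ^ n = c⁻¹ * (c * z ^ n * c⁻¹) * c := by group
          rw [this, h6]; group
        have h8 := hz n (by rw [zpow_natCast]; exact h7)
        exact hn.ne' (by exact_mod_cast h8)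
      have h6 : (⟨j (c * z ^ n * c⁻¹), h3⟩ : N') = (⟨j (z ^ n), hzN'⟩ : N') ^ k := by
        apply Subtype.ext
        show j (c * z ^ n * c⁻¹) = (j (z ^ n)) ^ k
        rw [← map_zpow, ← hk]
      rw [h6, map_zpow] at h5
      have h7 : f' ⟨j (z ^ n), hzN'⟩ = 1 := (IsMulTorsionFree.zpow_eq_one_iff_left hk0).1 h5
      exact hχ₂ z hz hz' n hn (hNK' hzN') h7
    refine exists_labelled hG N N' a1 b1 a2 b2 hNN r r' hr hr'
      (fun y => (zpowGroupHom (b y)).comp f) (fun x => (zpowGroupHom (a x)).comp f') ?_ y p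
      N.index hpn ?_
    · intro x y c u v hu hv
      have h1 : i c ∈ N := by
        have h2 : r x * (u : P) * (r x)⁻¹ ∈ N := a1.conj_mem _ u.2 _
        have h3 : r x * (u : P) * (r x)⁻¹ = i c := by rw [hu]; group
        rwa [h3] at h2
      have h2 : c ∈ N.comap i := h1
      rw [hzn] at h2
      obtain ⟨t, rfl⟩ := h2
      have h3 : u = (⟨_, hu0 x⟩ : N) ^ t := by
        apply Subtype.ext
        rw [hu]
        show (r x)⁻¹ * i ((z ^ n) ^ t) * r x = ((r x)⁻¹ * i (z ^ n) * r x) ^ t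
        have := conj_zpow (i := t) (a := (r x)⁻¹) (b := i (z ^ n))
        rw [inv_inv] at this
        rw [this, map_zpow]
      have h4 : v = (⟨_, hv0 y⟩ : N') ^ t := by
        apply Subtype.ext
        rw [hv]
        show (r' y)⁻¹ * j ((z ^ n) ^ t) * r' y = ((r' y)⁻¹ * j (z ^ n) * r' y) ^ t
        have := conj_zpow (i := t) (a := (r' y)⁻¹) (b := j (z ^ n))
        rw [inv_inv] at this
        rw [this, map_zpow]
      show (f u) ^ (b y) = (f' v) ^ (a x)
      have h5 : f ⟨_, hu0 x⟩ = Multiplicative.ofAdd (a x) := rfl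
      have h6 : f' ⟨_, hv0 y⟩ = Multiplicative.ofAdd (b y) := rfl
      rw [h3, h4, map_zpow, map_zpow, h5, h6, ← ofAdd_zsmul, ← ofAdd_zsmul, ← ofAdd_zsmul,
        ← ofAdd_zsmul]
      congr 1
      simp only [smul_eq_mul]
      ring
    · show (f ⟨p ^ N.index, hpn⟩) ^ (b y) ≠ 1
      rw [hfp, ← ofAdd_zsmul]
      intro h
      have h2 := ofAdd_eq_one.1 h
      rw [smul_eq_mul] at h2
      exact (mul_ne_zero hby hidx) h2

theorem exists_avoid {A C : Type} [Group A] [Group C] (hA : VRC A) (φ : C →* A)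
    (hC : VirtuallyCyclic C) (l : List A) (hl : ∀ a ∈ l, a ∉ φ.range) :
    ∃ M : Subgroup A, M.Normal ∧ M.FiniteIndex ∧ ∀ a ∈ l, ∀ c : C, φ c * a ∉ M := by
  induction l with
  | nil => exact ⟨⊤, inferInstance, inferInstance, fun a ha => absurd ha List.not_mem_nil⟩
  | cons a l ih =>
    obtain ⟨M, h1, h2, h3⟩ := ih fun b hb => hl b (List.mem_cons_of_mem _ hb)
    obtain ⟨M', h1', h2', h3'⟩ := sepC hA φ hC a (hl a List.mem_cons_self)
    refine ⟨M ⊓ M', inferInstance, inferInstance, ?_⟩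
    intro b hb c hcb
    rcases List.mem_cons.1 hb with rfl | hb
    · exact h3' c hcb.2
    · exact h3 b hb c hcb.1

theorem det_hyp (hG : IsAmalgam i j α β) (hP : VRC P) (hQ : VRC Q)
    (hi : Function.Injective i) (hj : Function.Injective j) (hC : VirtuallyCyclic C)
    (l : List (P × Q)) (hl : l ≠ []) (hlr : ∀ a ∈ l, a.1 ∉ i.range ∧ a.2 ∉ j.range) :
    Det2 ((l.map fun a => α a.1 * β a.2).prod) := by
  obtain ⟨M, hM, hM', hM1⟩ := exists_avoid hP i hC (l.map Prod.fst) (by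
    intro a ha
    obtain ⟨b, hb, rfl⟩ := List.mem_map.1 ha
    exact (hlr b hb).1)
  obtain ⟨L, hL, hL', hL1⟩ := exists_avoid hQ j hC (l.map Prod.snd) (by
    intro a ha
    obtain ⟨b, hb, rfl⟩ := List.mem_map.1 ha
    exact (hlr b hb).2)
  obtain ⟨N, N', a1, a2, a3, b1, b2, b3, hNN, -⟩ := choice hP hQ hi hj hC M hM hM' L hL hL'
  obtain ⟨Y, aY, fY, ⟨y⟩, h1, h2⟩ := exists_finite_action hG N N' a1 b1 a2 b2 hNN
  obtain ⟨X, fX, K, ψ, hK, hψ⟩ := hyp_char i j α β hG y l hl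
    (fun a ha c x hx => hM1 a.1 (List.mem_map_of_mem ha) c (a3 ((h1 x _).1 hx)))
    (fun a ha c x hx => hL1 a.2 (List.mem_map_of_mem ha) c (b3 ((h2 x _).1 hx)))
  obtain ⟨n, hn0, -, hn⟩ := Subgroup.exists_pow_mem_of_index_ne_zero hK.index_ne_zero
    ((l.map fun a => α a.1 * β a.2).prod)
  exact Det2.of_sub K hK n hn (Det2.comap ψ (free_det _ (hψ n hn0 hn)))

theorem main (hG : IsAmalgam i j α β) (hP : VRC P) (hQ : VRC Q)
    (hi : Function.Injective i) (hj : Function.Injective j) (hC : VirtuallyCyclic C) : VRC G := by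
  intro g
  apply vr_of_det
  have key : ∀ {P Q : Type} [Group P] [Group Q] {i : C →* P} {j : C →* Q} {α : P →* G}
      {β : Q →* G}, IsAmalgam i j α β → VRC P → VRC Q → Function.Injective i →
      Function.Injective j → ∀ p : P, Det1 (α p) ∨ Det2 (α p) := by
    intro P Q _ _ i j α β hG hP hQ hi hj p
    by_cases hp : ∀ n : ℤ, p ^ n = 1 → n = 0
    · exact Or.inr (det_inf hG hP hQ hi hj hC p hp)
    · push Not at hp
      obtain ⟨n, hn, hn0⟩ := hp
      exact Or.inl (det_fin hG hP hQ hi hj hC p (isOfFinOrder_iff_zpow_eq_one.2 ⟨n, hn0, hn⟩))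
  obtain ⟨x, h⟩ := cyc_red i j α β hG.comm hG.gen g
  have h' : Det1 (x * g * x⁻¹) ∨ Det2 (x * g * x⁻¹) := by
    rcases h with ⟨p, hp⟩ | ⟨q, hq⟩ | ⟨l, hl, hlr, hg⟩
    · rw [hp]; exact key hG hP hQ hi hj p
    · rw [hq]; exact key hG.symm hQ hP hj hi q
    · rw [hg]; exact Or.inr (det_hyp hG hP hQ hi hj hC l hl hlr)
  rcases h' with h' | h'
  · exact Or.inl h'.conj
  · exact Or.inr h'.conj

end amalgam

end Pool.Agent.Helper485_VRC
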